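import Pool.Agent.N856.QB.Stm
import Pool.Agent.N875.P17.Crit
import Pool.Agent.N871.S17.Tors

/-!
# Project K17 (helper875): the 2-part of the strong conjecture of Birch and Swinnerton-Dyer for the curve
# `E : y² + x y = x³ - 4 x² - x` of conductor `17` over the quadratic fields

`E = WN 1` (`17a2`, minimal, `Δ = 17²`), `y² = x (x + 1) (x - 16)`; `K = ℚ(√m)`, `m ≠ 1` squarefree, of
either sign, any residue class. `E_m` is the twist by `m`. If `E_m(ℚ)` is finite and `Ш(E_m/ℚ)[2] = 0` (that is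
`Sg m`), then `m < 0` and `17` is not split in `K` or `m > 0` and `17` is split, and we want (for `m ≠ -1, 17`)
`#Ш(E/K)[2^∞] = 4 ^ (t - r)`, with `t` the number of the primes `≠ 17` that ramify in `K` and `r` the
number of the infinite places of `K`. All the 2-Selmer classes over `K` are classes of pairs of rational
numbers. The parts are independent.
-/

set_option autoImplicit false
set_option linter.unusedVariables false

open NumberField IsDedekindDomain WeierstrassCurve Filter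

namespace Pool.Agent.N875.K17

open scoped Classical

open Pool.Agent.TH841.SH (SelG)
open Pool.Agent.N856.QB (Lo Se)
open Pool.Agent.N875.P17 (Em)
open Pool.Agent.N875.X15 (PR)
open Pool.Agent.N871.S17 (WN)
open Pool.Agent.Y682.XF (base a factor c Tam MinimalAt)

/-- `K = ℚ(r)`, `r² = m` -/
structure Qd (m : ℤ) (K : Type) [Field K] [NumberField K] (r : K) : Prop where
  hr : r ^ 2 = (m : K)
  hK : ∀ x : K, ∃ a b : ℚ, x = (a : K) + (b : K) * r

/-- the local condition at the place `w` of `K` for the pair of integers `(a, b)` and the curve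
`y² = x (x + 1) (x - 16)`: there is a point over `K_w` with `x a` and `(x + 1) b` squares (and `y ≠ 0`) -/
def LoE (K : Type) [Field K] [NumberField K] (w : HeightOneSpectrum (𝓞 K)) (a b : ℤ) : Prop :=
  Lo (w.adicCompletion K) 0 (-1) 16 (a : w.adicCompletion K) (b : w.adicCompletion K)

/-- K17-NRM. The norm maps the 2-Selmer group over `K` to the 2-Selmer group over `ℚ`, for all the
quadratic fields. (`Pool/Agent/N73/QB/Nrm.lean` is the case `m > 1`. For `m < 0` only the place at infinity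
is new: `K → ℂ`, `ℂ / ℝ` is a quadratic extension and `quad_pt` applies.) -/
def S_NRM : Prop := ∀ m : ℤ, Squarefree m → m ≠ 1 → ∀ (K : Type) [Field K] [NumberField K] (r : K),
  Qd m K r → ∀ (a b c : ℤ), a ≠ b → a ≠ c → b ≠ c → ∀ z ∈ Se K a b c, ∀ u v : ℤ, Squarefree u →
  Squarefree v → IsSquare (Algebra.norm ℚ z.1 * u) → IsSquare (Algebra.norm ℚ z.2 * v) →
  (u, v) ∈ SelG a b c

/-- K17-GN. Necessary condition at the places over `p ∤ 34 m` (good reduction, `p` unramified in `K`). -/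
def S_GN : Prop := ∀ m : ℤ, Squarefree m → m ≠ 1 → ∀ (K : Type) [Field K] [NumberField K] (r : K),
  Qd m K r → ∀ p : ℕ, p.Prime → ¬ (p : ℤ) ∣ 34 * m → ∀ w : HeightOneSpectrum (𝓞 K),
  ((p : ℕ) : 𝓞 K) ∈ w.asIdeal → ∀ a b : ℤ, Squarefree a → Squarefree b → LoE K w a b →
  ¬ (p : ℤ) ∣ a ∧ ¬ (p : ℤ) ∣ b

/-- K17-GU. Sufficient condition at the places over `p ∤ 34` (good reduction; if `p` divides `a` then it
divides `m` and `a` is a unit times a square in `K_w`): `N763.QB.all_units`, as in `N763/QB/U1.lean`. -/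
def S_GU : Prop := ∀ m : ℤ, Squarefree m → m ≠ 1 → ∀ (K : Type) [Field K] [NumberField K] (r : K),
  Qd m K r → ∀ p : ℕ, p.Prime → ¬ p ∣ 34 → ∀ w : HeightOneSpectrum (𝓞 K),
  ((p : ℕ) : 𝓞 K) ∈ w.asIdeal → ∀ a b : ℤ, Squarefree a → Squarefree b →
  ((p : ℤ) ∣ a → (p : ℤ) ∣ m) → ((p : ℤ) ∣ b → (p : ℤ) ∣ m) → LoE K w a b

/-- the condition at `2` -/
def C2 (m a b : ℤ) : Prop := (m % 4 = 1 → ¬ (2 : ℤ) ∣ a ∧ b % 4 = 1) ∧ (m % 4 = 3 → ¬ (2 : ℤ) ∣ b) ∧
  ((2 : ℤ) ∣ m → (b % 4 = 1 ∨ ((2 : ℤ) ∣ b ∧ ((b / 2) * (m / 2)) % 4 = 1)))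

/-- K17-2N. Necessary condition at the places over `2`. For a point over any finite extension `L` of `ℚ_2`
the class of `x` has even valuation and `x + 1` is a square times `1 + 4 z`, `z` integral: write
`u = 4 X` for the coordinate with `y² = u (u + 1) (u - 16)`, `y = 8 Y + 4 X`, `e = v(2)`. If `X` is integral
then `x + 1 = 1 + 4 X`, and if `X` is an integral non-unit one adds `(0, 0)`, `u ↦ -16 / u`. If `v(X) = -2 j < 0`,
`t = Y / X`, then `4 X + 1 = (2 t + 1)² + 16 + 4 / X` (check), a square if `j ≠ e` by Hensel, and for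
`j = e` the number `w = 4 X` is a unit, `w (w - 16)` is a square and so is `w + 1`. Then if `b` is rational and
`b (1 + 4 z)` is a square in `K_w`: `m = 1 mod 4` (`K_w` unramified): `b = 1 mod 4` (`N691.QB.b_form`); `m = 3 mod 4`: `b` is
odd (if `b = (p + q √m)² (1 + 4 z)` with `v(b) = 1` then `p`, `q` are odd, but the coordinate of `√m` gives
`p q` even); `m` even: `b = 1 mod 4` if `b` is odd, and apply this to `b m / 4` if `b` is even. -/
def S_2N : Prop := ∀ m : ℤ, Squarefree m → m ≠ 1 → ∀ (K : Type) [Field K] [NumberField K] (r : K),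
  Qd m K r → ∀ w : HeightOneSpectrum (𝓞 K), (2 : 𝓞 K) ∈ w.asIdeal →
  ∀ a b : ℤ, Squarefree a → Squarefree b → LoE K w a b → C2 m a b

/-- K17-2U. Sufficient condition at the places over `2`. Up to squares of `K_w` (`m` is one) `b = 1 mod 4`
and, if `m` is not `3 mod 4`, `a` is odd: there is a point over `ℚ_2` (`N875.P17.locC_two`, `m = 1`). If
`m = 3 mod 4` and `a` is even: a point over `ℚ_2` on the twist `y² = x (x + m) (x - 16 m)` with `x` even up to squares
(`N875.P17.locC_even, locC_tworam`), then `x / m`, and the sum with a point of the first kind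
(`TH841.SH` has the addition of the classes, or choose the residues so that all the classes occur). -/
def S_2U : Prop := ∀ m : ℤ, Squarefree m → m ≠ 1 → ∀ (K : Type) [Field K] [NumberField K] (r : K),
  Qd m K r → ∀ w : HeightOneSpectrum (𝓞 K), (2 : 𝓞 K) ∈ w.asIdeal →
  ∀ a b : ℤ, Squarefree a → Squarefree b → C2 m a b → LoE K w a b

/-- the condition at `17` -/
def C17 (m a : ℤ) : Prop := (jacobiSym m 17 = -1 → ¬ (17 : ℤ) ∣ a) ∧
  (jacobiSym m 17 = 1 → jacobiSym a 17 = 1) ∧
  ((17 : ℤ) ∣ m → (jacobiSym a 17 = 1 ∨ ((17 : ℤ) ∣ a ∧ jacobiSym ((a / 17) * (m / 17)) 17 = 1)))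

/-- K17-17N. Necessary condition at the places over `17`: for every point over `K_w` the coordinate `x` is a
square in `K_w`: if `x` is not integral, by Hensel; if `x` is a non-unit then `(x + 1) (x - 16)` is a unit square;
if `x = -1` in the residue field, `-1` is a square modulo `17`; otherwise `(x + 1) (x - 16) = (x + 1)²` in
the residue field. So `a` is a square in `K_w`; `17` is inert: `17 ∤ a`; split (`K_w = ℚ_17`): `(a/17) = 1`;
ramified: the residue field is `𝔽_17` and `a` or `a m / 17²` is a square modulo `17`. -/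
def S_17N : Prop := ∀ m : ℤ, Squarefree m → m ≠ 1 → ∀ (K : Type) [Field K] [NumberField K] (r : K),
  Qd m K r → ∀ w : HeightOneSpectrum (𝓞 K), (17 : 𝓞 K) ∈ w.asIdeal →
  ∀ a b : ℤ, Squarefree a → Squarefree b → LoE K w a b → C17 m a

/-- K17-17U. Sufficient condition at the places over `17`: `a` is a square in `K_w` (if `17` is inert all the
integers prime to `17` are), and for every `b` there is a point over `ℚ_17` (`N875.P17.locC_17`, `m = 1`). -/
def S_17U : Prop := ∀ m : ℤ, Squarefree m → m ≠ 1 → ∀ (K : Type) [Field K] [NumberField K] (r : K),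
  Qd m K r → ∀ w : HeightOneSpectrum (𝓞 K), (17 : 𝓞 K) ∈ w.asIdeal →
  ∀ a b : ℤ, Squarefree a → Squarefree b → C17 m a → LoE K w a b

/-- K17-INF. The infinite places: the condition is `0 < b` for the real ones, and it is empty for the
complex ones. -/
def S_INF : Prop := ∀ m : ℤ, Squarefree m → m ≠ 1 → ∀ (K : Type) [Field K] [NumberField K] (r : K),
  Qd m K r → ∀ v : InfinitePlace K, ∀ a b : ℤ, a ≠ 0 → b ≠ 0 →
  (Lo v.Completion 0 (-1) 16 (a : v.Completion) (b : v.Completion) ↔ (0 < m → 0 < b))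

/-- the number of the primes `≠ 17` that ramify in `ℚ(√m)` (`PR m`: the primes that divide `m`, and `2` if
`m` is not `1 mod 4`) -/
noncomputable def tt (m : ℤ) : ℕ := ((PR m).erase 17).card

/-- the number of the infinite places of `ℚ(√m)` -/
def rr (m : ℤ) : ℕ := if 0 < m then 2 else 1

/-- the classes -/
structure Rel (m a b : ℤ) : Prop where
  sa : Squarefree a
  sb : Squarefree b
  da : ∀ p : ℕ, p.Prime → p ≠ 2 → p ≠ 17 → (p : ℤ) ∣ a → (p : ℤ) ∣ m
  db : ∀ p : ℕ, p.Prime → p ≠ 2 → p ≠ 17 → (p : ℤ) ∣ b → (p : ℤ) ∣ m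
  c2 : C2 m a b
  c17 : C17 m a
  pos : 0 < m → 0 < b

/-- equality of square classes of `K` -/
def Eqv (m a b : ℤ) : Prop := IsSquare (a * b) ∨ IsSquare (a * b * m)

/-- K17-CNT. The number of the classes. The conditions on `a` and `b` are independent; modulo `m` they are:
`a = ± ∏ p` over a set of the `t` ramified primes `≠ 17` (`17 ∤ a` can be arranged), with
`(a/17) = 1` if `17` is not inert; modulo `m` if `17 ∤ m`; this halves the number by the first
hypothesis (`(2/17) = (-1/17) = 1`); so there are `2 ^ t` classes if `m < 0`, and `2 ^ (t - 1)` if `m > 0`.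
`b = 1 mod 4` up to `m` if `m` is not `3 mod 4`: `b = ∏ ± p`, over a set of odd primes that divide `17 m`
(for `m` even one can arrange `b` odd), or `b` odd if `m = 3 mod 4`; modulo `m`: `2 ^ t` classes; for `m > 0`
half of them are positive by the second hypothesis. -/
def S_CNT : Prop := ∀ m : ℤ, Squarefree m → m ≠ 1 → m ≠ -1 → m ≠ 17 →
  ((m < 0 ∧ jacobiSym m 17 ≠ 1) ∨ (0 < m ∧ jacobiSym m 17 = 1)) →
  (jacobiSym m 17 ≠ -1 → ∃ p : ℕ, p.Prime ∧ p ≠ 2 ∧ (p : ℤ) ∣ m ∧ jacobiSym p 17 = -1) →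
  (0 < m → m % 4 = 3 ∨ ∃ p : ℕ, p.Prime ∧ (p : ℤ) ∣ m ∧ p % 4 = 3) →
  ∃ S : Finset (ℤ × ℤ), (∀ z ∈ S, Rel m z.1 z.2) ∧
    (∀ z ∈ S, ∀ z' ∈ S, Eqv m z.1 z'.1 → Eqv m z.2 z'.2 → z = z') ∧
    (∀ a b : ℤ, Rel m a b → ∃ z ∈ S, Eqv m a z.1 ∧ Eqv m b z.2) ∧
    S.card = 4 ^ (tt m + 1 - rr m)

/-- K17-TOR. The torsion over `K`: exactly the four points of order two (`Tors.tors_Em` is the case of `ℚ`
for all the twists: the odd torsion over `K` is the sum of the parts of `E(ℚ)` and `E_m(ℚ)`; no point of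
order two is divisible by two if `K` is not `ℚ(i)`, `ℚ(√17)`). -/
def S_TOR : Prop := ∀ m : ℤ, Squarefree m → m ≠ 1 → m ≠ -1 → m ≠ 17 → ∀ (K : Type) [Field K]
  [NumberField K] (r : K), Qd m K r →
  Finite (AddCommGroup.torsion (base (WN 1) K).toAffine.Point) ∧
  Nat.card (AddCommGroup.torsion (base (WN 1) K).toAffine.Point) = 4

/-- the Euler product of the minimal equation `W` over `ℚ` at `s` is `f` (the product in `Y700.IsL`) -/
def Eul (W : WeierstrassCurve ℤ) (s f : ℂ) : Prop :=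
  HasProd (fun p : Nat.Primes => (1 - (Pool.Agent.W97.MT.ap W p : ℂ) * ((p : ℕ) : ℂ) ^ (-s) +
      (if ((p : ℕ) : ℤ) ∣ W.Δ then 0 else ((p : ℕ) : ℂ) ^ (1 - 2 * s)))⁻¹) f

/-- the minimal equation of the twist by `m` -/
def Wm (m : ℤ) : WeierstrassCurve ℤ := if m % 4 = 1 then WN m else Em m

/-- K17-LPR. `L(E/K, s) = L(E/ℚ, s) L(E_m/ℚ, s)` as Euler products, with all the factors (`2` may
ramify, `17` may be split, inert or ramified; `ap` of the twists in `N871/S17/Ap.lean`; compare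
`Pool/Agent/R428/OP/LProd.lean` and QB-LPR). -/
def S_LPR : Prop := ∀ m : ℤ, Squarefree m → m ≠ 1 → ∀ (K : Type) [Field K] [NumberField K] (r : K),
  Qd m K r → ∀ (s f g : ℂ), 3 / 2 < s.re → Eul (WN 1) s f → Eul (Wm m) s g →
  HasProd (factor (K := K) (WN 1) s) (f * g)

/-- K17-TAM. The product of the Tamagawa numbers over `K` of `E` (`Δ = 17²`, split multiplicative reduction,
`y² = x (x + 1) (x - 16)`): `17` split: `2 * 2`; inert: `2`; ramified: `v(Δ) = 4`, `c = 4`. -/
def S_TAM : Prop := ∀ m : ℤ, Squarefree m → m ≠ 1 → ∀ (K : Type) [Field K] [NumberField K] (r : K),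
  Qd m K r → {v : HeightOneSpectrum (𝓞 K) | c (WN 1) v ≠ 1}.Finite ∧
  Tam K (WN 1) = if jacobiSym m 17 = -1 then 2 else 4

/-- K17-MIN. The equation is minimal at all the places of `K` (`v(Δ) ≤ 4 < 12`). -/
def S_MIN : Prop := ∀ m : ℤ, Squarefree m → m ≠ 1 → ∀ (K : Type) [Field K] [NumberField K] (r : K),
  Qd m K r → ∀ v : HeightOneSpectrum (𝓞 K), MinimalAt (WN 1) v

end Pool.Agent.N875.K17
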