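import Pool.Agent.N875.K17.Stm
import Pool.Agent.N856.QB.Rat
import Pool.Agent.N856.QB.Sel

/-!
# Project K17: square classes of a quadratic field
-/

set_option autoImplicit false
set_option linter.unusedVariables false

open NumberField IsDedekindDomain

namespace Pool.Agent.N875.K17

open Pool.Agent.N49.QB (not_rat norm_eq)
open Pool.Agent.N856.QB (Lo Se sqf_of_rat sqf_eq sq_mul_class)

section

variable {K : Type} [Field K] [NumberField K] {m : ℤ} {r : K}

lemma hn_of (hm : Squarefree m) (h1 : m ≠ 1) (h : Qd m K r) : ∀ q : ℚ, algebraMap ℚ K q ≠ r :=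
  not_rat hm h1 h.hr

lemma norm_q (hm : Squarefree m) (h1 : m ≠ 1) (h : Qd m K r) (a b : ℚ) :
    Algebra.norm ℚ ((a : K) + (b : K) * r) = a ^ 2 - m * b ^ 2 := by
  have := norm_eq (D := m) (hn_of hm h1 h) h.hK h.hr a b
  simpa using this

lemma eq_zero_of (hm : Squarefree m) (h1 : m ≠ 1) (h : Qd m K r) {a b : ℚ}
    (hab : (a : K) + (b : K) * r = 0) : a = 0 ∧ b = 0 := by
  have hb : b = 0 := by
    by_contra hb
    apply hn_of hm h1 h (-(a / b))
    have hb' : (b : K) ≠ 0 := by exact_mod_cast hb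
    have e : algebraMap ℚ K (-(a / b)) = -((a : K) / (b : K)) := by simp
    rw [e]
    field_simp
    linear_combination -hab
  subst hb
  refine ⟨?_, rfl⟩
  simpa using hab

/-- rational numbers that are squares in `K` -/
lemma sq_rat (hm : Squarefree m) (h1 : m ≠ 1) (h : Qd m K r) {t : ℚ} (hs : IsSquare (t : K)) :
    IsSquare t ∨ IsSquare (t * m) := by
  obtain ⟨z, hz⟩ := hs
  obtain ⟨a, b, rfl⟩ := h.hK z
  have e : ((a ^ 2 + m * b ^ 2 - t : ℚ) : K) + ((2 * a * b : ℚ) : K) * r = 0 := by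
    push_cast
    rw [hz]
    linear_combination -(b : K) ^ 2 * h.hr
  obtain ⟨e1, e2⟩ := eq_zero_of hm h1 h e
  rcases mul_eq_zero.1 e2 with h2 | h2
  · have ha : a = 0 := by linarith
    right
    refine ⟨m * b, ?_⟩
    rw [ha] at e1
    linear_combination -(m : ℚ) * e1
  · left
    refine ⟨a, ?_⟩
    rw [h2] at e1
    linear_combination -e1

/-- Hilbert's theorem 90 for square classes -/
lemma rat_class (hm : Squarefree m) (h1 : m ≠ 1) (h : Qd m K r) {z : K} (hz : z ≠ 0)
    (hN : IsSquare (Algebra.norm ℚ z)) : ∃ q : ℚ, q ≠ 0 ∧ IsSquare (z * (q : K)) := by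
  obtain ⟨a, b, rfl⟩ := h.hK z
  obtain ⟨c, hc⟩ := hN
  rw [norm_q hm h1 h] at hc
  by_cases h0 : a + c = 0
  · have hb : b = 0 := by
      have h2 : (m : ℚ) * b ^ 2 = 0 := by
        have : c = -a := by linarith
        rw [this] at hc
        linear_combination -hc
      rcases mul_eq_zero.1 h2 with h3 | h3
      · exfalso
        have : m = 0 := by exact_mod_cast h3
        exact hm.ne_zero this
      · exact pow_eq_zero_iff (two_ne_zero) |>.1 h3
    subst hb
    have ha : a ≠ 0 := by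
      rintro rfl
      exact hz (by simp)
    refine ⟨a, ha, (a : K), by simp⟩
  · refine ⟨2 * (a + c), mul_ne_zero two_ne_zero h0, (a : K) + (b : K) * r + (c : K), ?_⟩
    have hc' : ((a : K) ^ 2 - (m : K) * (b : K) ^ 2) = (c : K) * (c : K) := by
      have := congrArg (fun x : ℚ => (x : K)) hc
      push_cast at this
      exact this
    push_cast
    linear_combination (-(b : K) ^ 2) * h.hr + hc'

lemma Lo.scale {L : Type} [Field L] {a b c : ℤ} {u v ρ : L} {D : ℤ} (hD : (D : L) ≠ 0)
    (hρ : ρ ^ 2 = (D : L)) (h : Lo L a b c u v) : Lo L (a * D) (b * D) (c * D) u v := by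
  obtain ⟨x, y, hy, he, g1, g2⟩ := h
  have hρ0 : ρ ≠ 0 := by
    rintro rfl
    rw [zero_pow two_ne_zero] at hρ
    exact hD hρ.symm
  refine ⟨D * x, D * ρ * y, mul_ne_zero (mul_ne_zero hD hρ0) hy, ?_, ?_, ?_⟩
  · push_cast
    linear_combination (D : L) ^ 2 * ρ ^ 2 * he + (D : L) ^ 2 * (x - a) * (x - b) * (x - c) * hρ
  · obtain ⟨t, ht⟩ := g1
    refine ⟨ρ * t, ?_⟩
    push_cast
    linear_combination (D : L) * ht - t ^ 2 * hρ
  · obtain ⟨t, ht⟩ := g2
    refine ⟨ρ * t, ?_⟩
    push_cast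
    linear_combination (D : L) * ht - t ^ 2 * hρ

lemma Se.scale (hm0 : m ≠ 0) (hq : Qd m K r) {a b c : ℤ} {z : K × K}
    (h : z ∈ Se K a b c) : z ∈ Se K (a * m) (b * m) (c * m) := by
  obtain ⟨k1, k2, k3, k4⟩ := h
  have hD : (m : K) ≠ 0 := by exact_mod_cast hm0
  refine ⟨k1, k2, fun v => ?_, fun v => ?_⟩
  · refine Lo.scale (D := m) (ρ := algebraMap K _ r) ?_ ?_ (k3 v)
    · have : (m : v.adicCompletion K) = algebraMap K _ (m : K) := (map_intCast _ _).symm
      rw [this]
      exact (map_ne_zero _).2 hD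
    · rw [← map_pow, hq.hr, map_intCast]
  · refine Lo.scale (D := m) (ρ := algebraMap K _ r) ?_ ?_ (k4 v)
    · have : (m : v.Completion) = algebraMap K _ (m : K) := (map_intCast _ _).symm
      rw [this]
      exact (map_ne_zero _).2 hD
    · rw [← map_pow, hq.hr, map_intCast]

/-- equality of the classes in `K` -/
lemma eqv_iff (hm : Squarefree m) (h1 : m ≠ 1) (hq : Qd m K r) {a b : ℤ} :
    IsSquare ((a : K) * (b : K)) ↔ Eqv m a b := by
  have hm0 := hm.ne_zero
  have hmK : (m : K) ≠ 0 := by exact_mod_cast hm0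
  constructor
  · intro h
    have hs' : IsSquare (((a * b : ℤ) : ℚ) : K) := by
      push_cast
      exact h
    rcases sq_rat hm h1 hq hs' with h3 | h3
    · left
      exact Rat.isSquare_intCast_iff.1 h3
    · right
      have e : ((a * b : ℤ) : ℚ) * (m : ℚ) = ((a * b * m : ℤ) : ℚ) := by push_cast; ring
      rw [e] at h3
      exact Rat.isSquare_intCast_iff.1 h3
  · rintro (h | h)
    · have := h.map (Int.castRingHom K)
      simpa using this
    · obtain ⟨t, ht⟩ := h
      refine ⟨(t : K) / r, ?_⟩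
      have hr0 : r ≠ 0 := by
        intro h0
        apply hmK
        rw [← hq.hr, h0, zero_pow two_ne_zero]
      have e : (a : K) * b * m = (t : K) * t := by exact_mod_cast ht
      rw [div_mul_div_comm, eq_div_iff (mul_ne_zero hr0 hr0)]
      rw [← e, ← hq.hr]
      ring

end

end Pool.Agent.N875.K17
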