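import Pool.Agent.N875.K17.Dsc
import Pool.Agent.N971.EX.Val17P
import Pool.Agent.N873.F15.Va
import Pool.Agent.N919.BS.Fin

/-!
# Project K17 (helper875): the central value over the quadratic field
-/

set_option autoImplicit false
set_option linter.unusedVariables false

open NumberField IsDedekindDomain Module NumberField.InfinitePlace

namespace Pool.Agent.N875.K17

open scoped Classical

open Pool.Agent.N875.P17 (Em Sg)
open Pool.Agent.N875.X15 (PR)
open Pool.Agent.N871.S17 (WN)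
open Pool.Agent.Y682.XF (base factor Tam realPeriod)
open Pool.Agent.Y700 (IsL Omega)
open Pool.Agent.N919.BS (Rt17)

/-! ### the infinite places -/

section
variable {K : Type} [Field K] [NumberField K] {m : ℤ} {r : K}

theorem nr_neg (hm : Squarefree m) (h1 : m ≠ 1) (h0 : m < 0) (hq : Qd m K r) :
    nrRealPlaces K = 0 ∧ nrComplexPlaces K = 1 := by
  have h2 := card_add_two_mul_card_eq_rank K
  rw [hq.finrank hm h1] at h2
  have h3 : nrRealPlaces K = 0 := by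
    rw [nrRealPlaces, Fintype.card_eq_zero_iff]
    refine ⟨fun v => ?_⟩
    obtain ⟨v, hv⟩ := v
    have h4 : (embedding_of_isReal hv) r ^ 2 = (m : ℝ) := by
      rw [← map_pow, hq.hr, map_intCast]
    have h5 : (m : ℝ) < 0 := by exact_mod_cast h0
    have h6 := sq_nonneg ((embedding_of_isReal hv) r)
    rw [h4] at h6
    linarith
  exact ⟨h3, by omega⟩

theorem nr_pos (hm : Squarefree m) (h1 : m ≠ 1) (h0 : 0 < m) (hq : Qd m K r) :
    nrRealPlaces K = 2 ∧ nrComplexPlaces K = 0 := by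
  have h2 := card_add_two_mul_card_eq_rank K
  rw [hq.finrank hm h1] at h2
  have h3 : nrComplexPlaces K = 0 := by
    rw [nrComplexPlaces, Fintype.card_eq_zero_iff]
    refine ⟨fun v => ?_⟩
    obtain ⟨v, hv⟩ := v
    have hv' := hv
    rw [isComplex_iff] at hv'
    apply hv'
    have h4 : v.embedding r ^ 2 = ((m : ℝ) : ℂ) := by
      rw [← map_pow, hq.hr, map_intCast]
      simp
    have h5 : (0 : ℝ) < m := by exact_mod_cast h0
    have h6 : ∃ t : ℝ, v.embedding r = (t : ℂ) := by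
      have h7 : (v.embedding r - ((√(m : ℝ) : ℝ) : ℂ)) * (v.embedding r + ((√(m : ℝ) : ℝ) : ℂ)) = 0 := by
        have h8 : ((√(m : ℝ) : ℝ) : ℂ) ^ 2 = ((m : ℝ) : ℂ) := by
          rw [← Complex.ofReal_pow, Real.sq_sqrt h5.le]
        linear_combination h4 - h8
      rcases mul_eq_zero.1 h7 with h8 | h8
      · exact ⟨_, sub_eq_zero.1 h8⟩
      · exact ⟨-√(m : ℝ), by rw [eq_neg_of_add_eq_zero_left h8]; simp⟩
    obtain ⟨t, ht⟩ := h6
    rw [ComplexEmbedding.isReal_iff]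
    ext x
    obtain ⟨a, b, rfl⟩ := hq.hK x
    rw [ComplexEmbedding.conjugate_coe_eq, map_add, map_mul, map_ratCast, map_ratCast, ht]
    simp
  exact ⟨by omega, h3⟩

end

/-! ### the values -/

/-- the value of the curve itself -/
def S_VAL1 : Prop := ∃ f : ℂ → ℂ, IsL (WN 1) f ∧ 8 * f 1 = ((Omega (WN 1) : ℝ) : ℂ)

/-- the values of the twists: `16 L(E_m, 1) = y² ∏ c_p Ω` -/
def S_VAL : Prop := ∀ m : ℤ, Squarefree m → m ≠ 1 → ∃ (f : ℂ → ℂ) (y : ℤ), IsL (Wm m) f ∧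
  16 * f 1 = ((y ^ 2 * 4 ^ (PR m).card * (if (17 : ℤ) ∣ m then 1 else 2) : ℤ) : ℂ) *
    ((Omega (Wm m) : ℝ) : ℂ) ∧ (Odd y ↔ Sg m) ∧ (¬ Rt17 m → y = 0)

theorem c4_WN {m : ℤ} (h : m % 4 = 1) : (WN m).c₄ = 273 * m ^ 2 := by
  obtain ⟨k, rfl⟩ : ∃ k, m = 4 * k + 1 := ⟨m / 4, by omega⟩
  rw [Pool.Agent.N871.S17.WN_k]
  simp only [WeierstrassCurve.c₄, WeierstrassCurve.b₂, WeierstrassCurve.b₄]
  ring

theorem c6_WN {m : ℤ} (h : m % 4 = 1) : (WN m).c₆ = 4455 * m ^ 3 := by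
  obtain ⟨k, rfl⟩ : ∃ k, m = 4 * k + 1 := ⟨m / 4, by omega⟩
  rw [Pool.Agent.N871.S17.WN_k]
  simp only [WeierstrassCurve.c₆, WeierstrassCurve.b₂, WeierstrassCurve.b₄, WeierstrassCurve.b₆]
  ring

theorem c4_Wm (m : ℤ) : (Wm m).c₄ = 273 * (Dm m) ^ 2 := by
  unfold Wm Dm
  split_ifs with h
  · exact c4_WN h
  · rw [Pool.Agent.N871.S17.c4_Em]
    ring

theorem c6_Wm (m : ℤ) : (Wm m).c₆ = 4455 * (Dm m) ^ 3 := by
  unfold Wm Dm
  split_ifs with h
  · exact c6_WN h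
  · rw [Pool.Agent.N871.S17.c6_Em]
    ring

/-- the period lattice of `E` and the real periods of `E` and its twists -/
theorem periods : ∃ (L : PeriodPair) (Op Om : ℝ), 0 < Op ∧ 0 < Om ∧
    L.g₂ = ((273 : ℤ) : ℂ) / 12 ∧ L.g₃ = ((4455 : ℤ) : ℂ) / 216 ∧
    (∀ w : ℂ, w ∈ L.lattice ↔ ∃ a b : ℤ, w = a * Op + b * Om * Complex.I) ∧
    Omega (WN 1) = 2 * Op ∧
    (∀ m : ℤ, 0 < m → Omega (Wm m) = 2 * Op / √((Dm m).natAbs : ℝ)) ∧
    (∀ m : ℤ, m < 0 → Omega (Wm m) = 2 * Om / √((Dm m).natAbs : ℝ)) := by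
  obtain ⟨L, Op, Om, hOp, hOm, g2, g3, hL, -⟩ := Pool.Agent.N971.EX.scale17
  have hD : ∀ m : ℤ, m ≠ 0 → Dm m ≠ 0 := by
    intro m hm
    unfold Dm
    split_ifs <;> omega
  have hDpos : ∀ m : ℤ, 0 < m → 0 < Dm m := by
    intro m hm
    unfold Dm
    split_ifs <;> omega
  have hDneg : ∀ m : ℤ, m < 0 → Dm m < 0 := by
    intro m hm
    unfold Dm
    split_ifs <;> omega
  refine ⟨L, Op, Om, hOp, hOm, g2, g3, hL, ?_, fun m hm => ?_, fun m hm => ?_⟩
  · have h := Pool.Agent.N971.EX.omega_pos L Op Om hOp hOm g2 g3 hL 1 one_pos (WN 1)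
      (by rw [c4_WN (by norm_num)]; norm_num) (by rw [c6_WN (by norm_num)]; norm_num)
    rw [h]
    simp
  · have h1 := hDpos m hm
    have h2 : (((Dm m).natAbs : ℕ) : ℤ) = Dm m := by omega
    exact Pool.Agent.N971.EX.omega_pos L Op Om hOp hOm g2 g3 hL (Dm m).natAbs (by omega) (Wm m)
      (by rw [c4_Wm, h2]) (by rw [c6_Wm, h2])
  · have h1 := hDneg m hm
    have h2 : (((Dm m).natAbs : ℕ) : ℤ) = -Dm m := by omega
    exact Pool.Agent.N971.EX.omega_neg L Op Om hOp hOm g2 g3 hL (Dm m).natAbs (by omega) (Wm m)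
      (by rw [c4_Wm, h2]; ring) (by rw [c6_Wm, h2]; ring)

/-- twice the area of a fundamental parallelogram -/
noncomputable def per (Λ : PeriodPair) : ℝ := 2 * |((starRingEnd ℂ) Λ.ω₁ * Λ.ω₂).im|

/-- the product of the periods over the infinite places of `K` -/
noncomputable def OmK (K : Type) [Field K] [NumberField K] (W : WeierstrassCurve ℤ)
    (Λ : PeriodPair) : ℝ := realPeriod W ^ nrRealPlaces K * per Λ ^ nrComplexPlaces K

/-- the order of `Ш` predicted by the formula in rank zero -/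
noncomputable def anO (K : Type) [Field K] [NumberField K] (W : WeierstrassCurve ℤ) (l : ℂ)
    (Λ : PeriodPair) : ℂ :=
  l * (Real.sqrt |(discr K : ℝ)| : ℝ) *
    (Nat.card (AddCommGroup.torsion (base W K).toAffine.Point) : ℂ) ^ 2 /
    ((OmK K W Λ : ℂ) * (Tam K W : ℂ))

theorem real_eq (W : WeierstrassCurve ℤ) : realPeriod W = Omega W := by
  rw [Pool.Agent.N971.EX.omega_eq]
  rfl

theorem tt_dvd {m : ℤ} (h0 : m ≠ 0) (h : (17 : ℤ) ∣ m) : (PR m).card = tt m + 1 := by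
  have hp : (17 : ℕ) ∈ PR m := by
    rw [Pool.Agent.N875.X15.mem_PR h0]
    exact ⟨by norm_num, Or.inl (by exact_mod_cast h)⟩
  unfold tt
  rw [Finset.card_erase_of_mem hp]
  have := Finset.card_pos.2 ⟨17, hp⟩
  omega

theorem tt_ndvd {m : ℤ} (h0 : m ≠ 0) (h : ¬ (17 : ℤ) ∣ m) : (PR m).card = tt m := by
  have hp : (17 : ℕ) ∉ PR m := by
    rw [Pool.Agent.N875.X15.mem_PR h0]
    rintro ⟨-, h1 | h1⟩
    · exact h (by exact_mod_cast h1)
    · exact absurd h1.1 (by norm_num)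
  unfold tt
  rw [Finset.erase_eq_of_notMem hp]

theorem jac_dvd {m : ℤ} (h : (17 : ℤ) ∣ m) : jacobiSym m 17 = 0 := by
  rw [jacobiSym.eq_zero_iff_not_coprime]
  intro h1
  have h2 : (17 : ℤ) ∣ (Int.gcd m 17 : ℤ) := Int.dvd_coe_gcd h (dvd_refl _)
  rw [show Int.gcd m 17 = 1 from h1] at h2
  norm_num at h2

theorem jac_ndvd {m : ℤ} (h : ¬ (17 : ℤ) ∣ m) : jacobiSym m 17 = 1 ∨ jacobiSym m 17 = -1 := by
  refine jacobiSym.eq_one_or_neg_one ?_
  have h1 := Int.gcd_dvd_left (a := m) (b := 17)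
  have h2 := Int.gcd_dvd_right (a := m) (b := 17)
  have h3 : Int.gcd m 17 ∣ 17 := by exact_mod_cast h2
  rcases (Nat.dvd_prime (by norm_num)).1 h3 with h4 | h4
  · exact h4
  · rw [h4] at h1
    exact absurd (by exact_mod_cast h1) h

/-- **The central value.** -/
theorem val_main (hLPR : S_LPR) (hTAM : S_TAM) (hTOR : S_TOR) (hV1 : S_VAL1) (hV : S_VAL)
    {m : ℤ} (hm : Squarefree m) (h1 : m ≠ 1) (hm1 : m ≠ -1) (hm17 : m ≠ 17)
    {K : Type} [Field K] [NumberField K] {r : K} (hq : Qd m K r) :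
    ∃ (L : ℂ → ℂ) (y : ℤ),
      (Differentiable ℂ L ∧ ∀ s : ℂ, 3 / 2 < s.re → HasProd (factor (K := K) (WN 1) s) (L s)) ∧
      (Odd y ↔ Sg m) ∧
      (∃ Λ : PeriodPair, Λ.g₂ = ((WN 1).c₄ : ℂ) / 12 ∧ Λ.g₃ = ((WN 1).c₆ : ℂ) / 216) ∧
      (∀ Λ : PeriodPair, Λ.g₂ = ((WN 1).c₄ : ℂ) / 12 ∧ Λ.g₃ = ((WN 1).c₆ : ℂ) / 216 →
        0 < OmK K (WN 1) Λ ∧
        4 ^ rr m * anO K (WN 1) (L 1) Λ = ((4 ^ tt m * (y : ℚ) ^ 2 : ℚ) : ℂ)) := by
  obtain ⟨f, hf, hf1⟩ := hV1
  obtain ⟨g, y, hg, hg1, hy, hy0⟩ := hV m hm h1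
  obtain ⟨L0, Op, Om, hOp, hOm, g2, g3, hLt, hΩ1, hΩp, hΩn⟩ := periods
  have hm0 : m ≠ 0 := hm.ne_zero
  have c4 : (((WN 1).c₄ : ℤ) : ℂ) / 12 = ((273 : ℤ) : ℂ) / 12 := by
    rw [c4_WN (by norm_num)]
    norm_num
  have c6 : (((WN 1).c₆ : ℤ) : ℂ) / 216 = ((4455 : ℤ) : ℂ) / 216 := by
    rw [c6_WN (by norm_num)]
    norm_num
  have hper : ∀ Λ : PeriodPair, Λ.g₂ = ((WN 1).c₄ : ℂ) / 12 ∧ Λ.g₃ = ((WN 1).c₆ : ℂ) / 216 →
      per Λ = 2 * (Op * Om) := by
    rintro Λ ⟨e1, e2⟩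
    exact Pool.Agent.N873.F15.Va.area hOp hOm hLt (by rw [e1, c4, g2]) (by rw [e2, c6, g3])
  have hD0 : (0 : ℝ) < ((Dm m).natAbs : ℝ) := by
    have : Dm m ≠ 0 := by
      unfold Dm
      split_ifs <;> omega
    have : 0 < (Dm m).natAbs := by omega
    exact_mod_cast this
  have hsD : (0 : ℝ) < √((Dm m).natAbs : ℝ) := Real.sqrt_pos.2 hD0
  have hdisc : |((discr K : ℤ) : ℝ)| = ((Dm m).natAbs : ℝ) := by
    rw [discr_Dm hm h1 hq, ← Int.cast_abs, Int.abs_eq_natAbs, Int.cast_natCast]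
  have htor : (Nat.card (AddCommGroup.torsion (base (WN 1) K).toAffine.Point) : ℂ) = 4 := by
    have := (hTOR m hm h1 hm1 hm17 K r hq).2
    exact_mod_cast this
  have htam := (hTAM m hm h1 K r hq).2
  refine ⟨fun s => f s * g s, y, ⟨hf.1.mul hg.1, fun s hs => ?_⟩, hy,
    ⟨L0, by rw [g2, c4], by rw [g3, c6]⟩, fun Λ hΛ => ?_⟩
  · exact hLPR m hm h1 K r hq s _ _ hs (hf.2 s hs) (hg.2 s hs)
  · have hp := hper Λ hΛ
    have o1 : (Op : ℂ) ≠ 0 := by exact_mod_cast hOp.ne'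
    have o2 : (Om : ℂ) ≠ 0 := by exact_mod_cast hOm.ne'
    have o3 : ((√((Dm m).natAbs : ℝ) : ℝ) : ℂ) ≠ 0 := by exact_mod_cast hsD.ne'
    have hfv : f 1 = (Op : ℂ) / 4 := by
      rw [hΩ1] at hf1
      push_cast at hf1
      linear_combination (1 / 8 : ℂ) * hf1
    rcases lt_or_gt_of_ne hm0 with hneg | hpos
    · obtain ⟨r1, r2⟩ := nr_neg hm h1 hneg hq
      have hr : rr m = 1 := by
        unfold rr
        rw [if_neg (by omega)]
      have hO : OmK K (WN 1) Λ = 2 * (Op * Om) := by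
        unfold OmK
        rw [r1, r2, hp, pow_zero, pow_one, one_mul]
      refine ⟨by rw [hO]; positivity, ?_⟩
      have hgv : g 1 = (y : ℂ) ^ 2 * 4 ^ (PR m).card * (if (17 : ℤ) ∣ m then 1 else 2) *
          Om / (8 * ((√((Dm m).natAbs : ℝ) : ℝ) : ℂ)) := by
        rw [hΩn m hneg] at hg1
        push_cast at hg1
        rw [eq_div_iff (mul_ne_zero (by norm_num) o3)]
        field_simp at hg1
        linear_combination (1 / 2 : ℂ) * hg1
      unfold anO
      rw [hO, hdisc, htor, htam, hr]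
      show 4 ^ 1 * (f 1 * g 1 * _ * _ / _) = _
      rw [hfv, hgv]
      by_cases hR : Rt17 m
      · rcases hR with h5 | h5
        · omega
        · by_cases h17 : (17 : ℤ) ∣ m
          · rw [if_pos h17, if_neg (by rw [jac_dvd h17]; norm_num), tt_dvd hm0 h17, pow_succ]
            push_cast
            field_simp
            ring
          · have h6 : jacobiSym m 17 = -1 := by
              rcases jac_ndvd h17 with h7 | h7
              · exact absurd h7 h5.2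
              · exact h7
            rw [if_neg h17, if_pos h6, tt_ndvd hm0 h17]
            push_cast
            field_simp
            ring
      · rw [hy0 hR]
        simp
    · obtain ⟨r1, r2⟩ := nr_pos hm h1 hpos hq
      have hr : rr m = 2 := by
        unfold rr
        rw [if_pos hpos]
      have hO : OmK K (WN 1) Λ = (2 * Op) ^ 2 := by
        unfold OmK
        rw [r1, r2, real_eq, hΩ1, pow_zero, mul_one]
      refine ⟨by rw [hO]; positivity, ?_⟩
      have hgv : g 1 = (y : ℂ) ^ 2 * 4 ^ (PR m).card * (if (17 : ℤ) ∣ m then 1 else 2) *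
          Op / (8 * ((√((Dm m).natAbs : ℝ) : ℝ) : ℂ)) := by
        rw [hΩp m hpos] at hg1
        push_cast at hg1
        rw [eq_div_iff (mul_ne_zero (by norm_num) o3)]
        field_simp at hg1
        linear_combination (1 / 2 : ℂ) * hg1
      unfold anO
      rw [hO, hdisc, htor, htam, hr]
      show 4 ^ 2 * (f 1 * g 1 * _ * _ / _) = _
      rw [hfv, hgv]
      by_cases hR : Rt17 m
      · rcases hR with h5 | h5
        · have h17 : ¬ (17 : ℤ) ∣ m := by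
            intro h6
            rw [jac_dvd h6] at h5
            exact absurd h5.2 (by norm_num)
          rw [if_neg h17, if_neg (by rw [h5.2]; norm_num), tt_ndvd hm0 h17]
          push_cast
          field_simp
          ring
        · omega
      · rw [hy0 hR]
        simp

end Pool.Agent.N875.K17
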