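import Pool.Agent.N809.P17.Pty

/-!
# Project K17: consequences of the criterion `Sg m`
-/

set_option autoImplicit false
set_option linter.unusedVariables false

open Finset

namespace Pool.Agent.N875.K17

open Pool.Agent.N875.X15 Pool.Agent.N875.P17
open Pool.Agent.N809.P17 (sg_parity al_total)

variable {m : ℤ}

lemma PR_nonempty (h0 : m ≠ 0) (h1 : m ≠ 1) (hm1 : m ≠ -1) : (PR m).Nonempty := by
  obtain ⟨p, hp, hpm⟩ := Nat.exists_prime_and_dvd (n := m.natAbs) (by omega)
  exact ⟨p, (mem_PR h0).2 ⟨hp, Or.inl (Int.natCast_dvd.2 hpm)⟩⟩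

lemma ra17_zero {p : ℕ} (hp : p.Prime) (hp2 : p ≠ 2) (h : jacobiSym p 17 = 1) : ra p 17 = 0 := by
  have e : jacobiSym ((17 : ℕ) : ℤ) p = jacobiSym (p : ℤ) 17 :=
    jacobiSym.quadratic_reciprocity_one_mod_four (by norm_num) (hp.odd_of_ne_two hp2)
  unfold ra
  rw [ch_odd hp2]
  have e2 : ((17 : ℕ) : ℤ) = 17 := rfl
  rw [e2] at e
  rw [e, h, if_pos rfl]

/-- a ramified prime that is not a square modulo `17` -/
theorem nt17 (hs : Squarefree m) (h1 : m ≠ 1) (hS : Sg m) (hj : jacobiSym m 17 ≠ -1) :
    ∃ p : ℕ, p.Prime ∧ p ≠ 2 ∧ (p : ℤ) ∣ m ∧ jacobiSym p 17 = -1 := by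
  classical
  have hm0 := hs.ne_zero
  by_contra hcon
  push Not at hcon
  have hra : ∀ p ∈ PR m, p ≠ 17 → ra p 17 = 0 := by
    intro p hp hp17
    obtain ⟨hpp, hram⟩ := (mem_PR hm0).1 hp
    by_cases hp2 : p = 2
    · subst hp2
      exact ra2_17
    · have hpm : (p : ℤ) ∣ m := by
        rcases hram with h | h
        · exact h
        · exact absurd h.1 hp2
      refine ra17_zero hpp hp2 ?_
      have h2 := hcon p hpp hp2 hpm
      have h3 : Int.gcd (p : ℤ) ((17 : ℕ) : ℤ) = 1 := by
        rw [Int.gcd_natCast_natCast]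
        exact (Nat.coprime_primes hpp (by norm_num)).2 hp17
      rcases jacobiSym.eq_one_or_neg_one h3 with h4 | h4
      · exact h4
      · exact absurd h4 h2
  by_cases h17 : (17 : ℤ) ∣ m
  · have h17P : 17 ∈ PR m := (mem_PR hm0).2 ⟨by norm_num, Or.inl h17⟩
    have key := hS (fun _ => 0) (fun q => if q = 17 then 1 else 0) rfl (by
      intro p hp hp17
      rw [mul_zero, zero_add, Finset.sum_eq_single_of_mem 17 h17P (by
        intro q _ hq
        rw [if_neg hq, mul_zero]), if_pos rfl, mul_one]
      unfold Lm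
      rw [if_neg hp17, ps_odd (by norm_num)]
      have : sgp 17 = 17 := by decide
      rw [this]
      exact hra p hp hp17) (by
      intro q hq
      simp only [mul_zero, Finset.sum_const_zero, zero_add]
      by_cases hq17 : q = 17
      · subst hq17
        rw [if_pos rfl, mul_one, al_odd (by norm_num)]
        have : sgp 17 = 17 := by decide
        rw [this, if_neg (by norm_num)]
      · rw [if_neg hq17, mul_zero]) 17 h17P
    simp at key
  · have h17P : 17 ∉ PR m := by
      intro h
      rcases ((mem_PR hm0).1 h).2 with h2 | h2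
      · exact h17 (by exact_mod_cast h2)
      · exact absurd h2.1 (by norm_num)
    have hpos : 0 < m := by
      rcases sg_parity hs hS with ⟨-, h2⟩ | ⟨h2, -⟩
      · exfalso
        have h3 : Int.gcd m ((17 : ℕ) : ℤ) = 1 := by
          have hp : Prime (17 : ℤ) := by
            have := Nat.prime_iff_prime_int.1 (by norm_num : Nat.Prime 17)
            exact_mod_cast this
          exact Int.isCoprime_iff_gcd_eq_one.1 (hp.coprime_iff_not_dvd.2 h17).symm
        rcases jacobiSym.eq_one_or_neg_one h3 with h4 | h4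
        · exact h2 h4
        · exact hj h4
      · exact h2
    obtain ⟨p0, hp0⟩ := PR_nonempty hm0 h1 (by omega)
    set M : Matrix {p // p ∈ PR m} {p // p ∈ PR m} (ZMod 2) := fun p q => Lm m p.1 q.1 with hM
    have hdet : M.det = 0 := by
      rw [← Matrix.exists_mulVec_eq_zero_iff]
      refine ⟨fun _ => 1, fun h => ?_, ?_⟩
      · have := congrFun h ⟨p0, hp0⟩
        exact absurd this (by simp)
      · funext p
        rw [Matrix.mulVec, dotProduct]
        simp only [mul_one, Pi.zero_apply]
        exact (Finset.sum_coe_sort (PR m) fun q => Lm m p.1 q).trans (row_sum p.2)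
    obtain ⟨v, hv0, hv⟩ := Matrix.exists_vecMul_eq_zero_iff.2 hdet
    set x : ℕ → ZMod 2 := fun p => if h : p ∈ PR m then v ⟨p, h⟩ else 0 with hx
    have key := hS x (fun _ => 0) (by
      simp only [hx]
      rw [dif_neg h17P]) (by
      intro p hp hp17
      rw [hra p hp hp17]
      simp) (by
      intro q hq
      have h2 := congrFun hv ⟨q, hq⟩
      rw [Matrix.vecMul, dotProduct] at h2
      rw [mul_zero, add_zero, ← Finset.sum_coe_sort]
      rw [Pi.zero_apply] at h2
      rw [← h2]
      refine Finset.sum_congr rfl fun p _ => ?_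
      simp only [hx, hM]
      rw [dif_pos p.2, mul_comm])
    apply hv0
    funext p
    have h3 := (key p.1 p.2).1
    simp only [hx] at h3
    rw [dif_pos p.2] at h3
    exact h3

/-- a negative class -/
theorem ntpos (hs : Squarefree m) (h1 : m ≠ 1) (hS : Sg m) (h0 : 0 < m) :
    m % 4 = 3 ∨ ∃ p : ℕ, p.Prime ∧ (p : ℤ) ∣ m ∧ p % 4 = 3 := by
  classical
  have hm0 := hs.ne_zero
  by_contra hcon
  push Not at hcon
  obtain ⟨h4, hcon⟩ := hcon
  have hodd : ∀ q ∈ PR m, q ≠ 2 → al m q = 0 := by
    intro q hq hq2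
    obtain ⟨hqp, hram⟩ := (mem_PR hm0).1 hq
    have hqm : (q : ℤ) ∣ m := by
      rcases hram with h | h
      · exact h
      · exact absurd h.1 hq2
    have h2 := hcon q hqp hqm
    have h3 := hqp.eq_two_or_odd
    have hpos := hqp.pos
    rw [al_odd hq2]
    unfold sgp
    rw [if_pos (show q % 4 = 1 by omega), if_neg (by omega)]
  have hall : ∀ q ∈ PR m, al m q = 0 := by
    intro q hq
    by_cases hq2 : q = 2
    · subst hq2
      have h2 := al_total hs
      rw [if_neg (by omega), Finset.sum_eq_single_of_mem 2 hq (fun b hb hb2 => hodd b hb hb2)] at h2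
      exact h2
    · exact hodd q hq hq2
  obtain ⟨p0, hp0⟩ := PR_nonempty hm0 h1 (by omega)
  -- the vector of the signs, with the entry at `17` allowed for `y`
  have key := hS (fun _ => 0) (fun _ => 1) rfl (by
    intro p hp hp17
    simp only [mul_zero, zero_add, mul_one]
    exact row_sum hp) (by
    intro q hq
    rw [hall q hq]
    simp) p0 hp0
  simp at key

end Pool.Agent.N875.K17
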