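import Pool.Agent.N875.K17.Thm
import Pool.Agent.N873.F15.Om
import Pool.Agent.Y948.CQ.C2

/-!
# Project K17 (helper875): the densities
-/

set_option autoImplicit false
set_option linter.unusedVariables false

namespace Pool.Agent.N875.K17

open scoped Classical
open Finset Filter Topology
open Pool.Agent.N919.BS (Rt17 Fund core NF low1 ratio NF_eq)
open Pool.Agent.N916.MO (G17 dens17_fd)
open Pool.Agent.Y703.CQ (c2)
open Pool.Agent.N873.F15.Dn (cnt few cnt_filter)

/-- the number of the integers `D`, `|D| ≤ X`, with the property `Q` -/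
noncomputable def ct (Q : ℤ → Prop) (X : ℕ) : ℕ := Nat.card {D : ℤ // |D| ≤ X ∧ Q D}

theorem ct_filter (Q : ℤ → Prop) [DecidablePred Q] (X : ℕ) : ct Q X = ((Icc (-(X : ℤ)) X).filter Q).card := by
  unfold ct
  rw [← Nat.card_eq_finsetCard]
  refine Nat.card_congr (Equiv.subtypeEquivRight fun n => ?_)
  rw [Finset.mem_filter, Finset.mem_Icc, abs_le]

theorem ct_mono {P Q : ℤ → Prop} (h : ∀ D, P D → Q D) (X : ℕ) : ct P X ≤ ct Q X := by
  rw [ct_filter, ct_filter]
  refine card_le_card fun D hD => ?_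
  rw [mem_filter] at hD ⊢
  exact ⟨hD.1, h D hD.2⟩

theorem ct_or {P Q : ℤ → Prop} (X : ℕ) : ct (fun D => P D ∨ Q D) X ≤ ct P X + ct Q X := by
  rw [ct_filter, ct_filter, ct_filter]
  refine le_trans (card_le_card fun D hD => ?_) (card_union_le _ _)
  rw [mem_filter] at hD
  rw [mem_union, mem_filter, mem_filter]
  rcases hD.2 with h | h
  · exact Or.inl ⟨hD.1, h⟩
  · exact Or.inr ⟨hD.1, h⟩

theorem ct_fin (S : Finset ℤ) (X : ℕ) : ct (fun D => D ∈ S) X ≤ S.card := by
  rw [ct_filter]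
  refine card_le_card fun D hD => ?_
  exact (mem_filter.1 hD).2

/-- few integers have few prime factors -/
theorem ct_few (B X : ℕ) : ct (fun D => D ≠ 0 ∧ D.natAbs.primeFactors.card < B) X ≤
    2 * cnt (fun n => n.primeFactors.card < B) X := by
  have h1 : ct (fun D => D ≠ 0 ∧ D.natAbs.primeFactors.card < B) X ≤
      (((Icc 1 X).filter fun n : ℕ => n.primeFactors.card < B).image fun n : ℕ => (n : ℤ)).card +
      (((Icc 1 X).filter fun n : ℕ => n.primeFactors.card < B).image fun n : ℕ => -(n : ℤ)).card := by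
    rw [ct_filter]
    refine le_trans (card_le_card fun D hD => ?_) (card_union_le _ _)
    rw [mem_filter, mem_Icc] at hD
    obtain ⟨⟨h1, h2⟩, h3, h4⟩ := hD
    rw [mem_union, mem_image, mem_image]
    rcases lt_or_gt_of_ne h3 with h5 | h5
    · right
      exact ⟨D.natAbs, mem_filter.2 ⟨mem_Icc.2 ⟨by omega, by omega⟩, h4⟩, by omega⟩
    · left
      exact ⟨D.natAbs, mem_filter.2 ⟨mem_Icc.2 ⟨by omega, by omega⟩, h4⟩, by omega⟩
  have h2 := card_image_le (s := (Icc 1 X).filter fun n : ℕ => n.primeFactors.card < B)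
    (f := fun n : ℕ => (n : ℤ))
  have h3 := card_image_le (s := (Icc 1 X).filter fun n : ℕ => n.primeFactors.card < B)
    (f := fun n : ℕ => -(n : ℤ))
  rw [cnt_filter]
  omega

theorem NF_ct (P : ℤ → Prop) (X : ℕ) : NF P X = ct (fun D => Fund D ∧ P (core D)) X := by
  rw [ct_filter]
  unfold Pool.Agent.N919.BS.NF
  congr

theorem ct_le (Q : ℤ → Prop) (X : ℕ) : ct Q X ≤ 2 * X + 1 := by
  rw [ct_filter]
  refine (card_filter_le _ _).trans ?_
  rw [Int.card_Icc]
  omega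

/-- the number of the fundamental discriminants is of the order of `X` -/
theorem NF_low : ∃ (c : ℝ) (X₀ : ℕ), 0 < c ∧ ∀ X : ℕ, X₀ ≤ X → c * X ≤ (NF (fun _ => True) X : ℝ) := by
  obtain ⟨c₁, X₁, hc₁, hlow⟩ := low1
  refine ⟨c₁, X₁, hc₁, fun X hX => (hlow X hX).trans ?_⟩
  rw [NF_eq]
  exact_mod_cast (by omega)

/-- **the density is not changed by finitely many and by few discriminants** -/
theorem dens {P : ℤ → Prop} {c : ℝ} (h : Tendsto (fun X : ℕ => (NF P X : ℝ) /
    (NF (fun _ => True) X : ℝ)) atTop (𝓝 c)) {Q : ℤ → Prop} (S : Finset ℤ) (B : ℕ)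
    (h1 : ∀ D, Q D → (Fund D ∧ P (core D)) ∨ D ∈ S)
    (h2 : ∀ D, Fund D → P (core D) → Q D ∨ D ∈ S ∨ D.natAbs.primeFactors.card < B) :
    Tendsto (fun X : ℕ => (ct Q X : ℝ) / (ct (fun D => Fund D ∧ D ≠ 1) X : ℝ)) atTop (𝓝 c) := by
  obtain ⟨c₁, X₁, hc₁, hlow⟩ := NF_low
  have hone : ∀ X : ℕ, NF (fun _ => True) X ≤ ct (fun D => Fund D ∧ D ≠ 1) X + 1 := by
    intro X
    have e1 : NF (fun _ => True) X ≤ ct (fun D => (Fund D ∧ D ≠ 1) ∨ D ∈ ({1} : Finset ℤ)) X := by
      rw [NF_ct]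
      refine ct_mono (fun D hD => ?_) X
      by_cases h : D = 1
      · exact Or.inr (by simp [h])
      · exact Or.inl ⟨hD.1, h⟩
    have e2 := ct_or (P := fun D => Fund D ∧ D ≠ 1) (Q := fun D => D ∈ ({1} : Finset ℤ)) X
    have e3 := ct_fin {1} X
    rw [card_singleton] at e3
    omega
  have hone' : ∀ X : ℕ, ct (fun D => Fund D ∧ D ≠ 1) X ≤ NF (fun _ => True) X := by
    intro X
    rw [NF_ct]
    exact ct_mono (fun D hD => ⟨hD.1, trivial⟩) X
  have hA : ∀ X : ℕ, ct Q X ≤ NF P X + S.card := by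
    intro X
    have e1 : ct Q X ≤ ct (fun D => (Fund D ∧ P (core D)) ∨ D ∈ S) X := ct_mono h1 X
    have e2 := ct_or (P := fun D => Fund D ∧ P (core D)) (Q := fun D => D ∈ S) X
    have e3 := ct_fin S X
    rw [NF_ct]
    omega
  have hB : ∀ X : ℕ, NF P X ≤ ct Q X + (S.card +
      2 * cnt (fun n => n.primeFactors.card < B) X) := by
    intro X
    have e1 : NF P X ≤ ct (fun D => Q D ∨ (D ∈ S ∨ (D ≠ 0 ∧ D.natAbs.primeFactors.card < B))) X := by
      rw [NF_ct]
      refine ct_mono (fun D hD => ?_) X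
      have h0 : D ≠ 0 := by
        rintro rfl
        rcases hD.1 with h | ⟨m, h, h', -⟩
        · omega
        · have : m = 0 := by omega
          exact h'.ne_zero this
      rcases h2 D hD.1 hD.2 with h | h | h
      · exact Or.inl h
      · exact Or.inr (Or.inl h)
      · exact Or.inr (Or.inr ⟨h0, h⟩)
    have e2 := ct_or (P := Q) (Q := fun D => D ∈ S ∨ (D ≠ 0 ∧ D.natAbs.primeFactors.card < B)) X
    have e3 := ct_or (P := fun D => D ∈ S) (Q := fun D => D ≠ 0 ∧ D.natAbs.primeFactors.card < B) X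
    have e4 := ct_fin S X
    have e5 := ct_few B X
    omega
  refine ratio (c₁ := c₁ / 2) (X₁ := X₁ + ⌈2 / c₁⌉₊) (by positivity) (fun X hX => ?_) ?_
  · have e1 := hlow X (by omega)
    have e2 : (NF (fun _ => True) X : ℝ) ≤ (ct (fun D => Fund D ∧ D ≠ 1) X : ℝ) + 1 := by
      exact_mod_cast hone X
    have e3 : 2 / c₁ ≤ X := (Nat.le_ceil _).trans (by exact_mod_cast (by omega))
    rw [div_le_iff₀ hc₁] at e3
    nlinarith
  · intro ε hε
    have hf := few B
    rw [Metric.tendsto_atTop] at h hf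
    obtain ⟨N1, hN1⟩ := h (ε / 12) (by positivity)
    obtain ⟨N2, hN2⟩ := hf (ε / 16) (by positivity)
    refine ⟨N1 + N2 + X₁ + 1 + ⌈2 / c₁⌉₊ + ⌈4 * (S.card + |c|) / ε⌉₊, fun X hX => ?_⟩
    have hXp : (0 : ℝ) < X := by exact_mod_cast (by omega : 0 < X)
    have hX1 : (1 : ℝ) ≤ X := by exact_mod_cast (by omega : 1 ≤ X)
    have k1 := hN1 X (by omega)
    have k2 := hN2 X (by omega)
    rw [Real.dist_eq, sub_zero, abs_of_nonneg (by positivity), div_lt_iff₀ hXp] at k2
    have k3 := hlow X (by omega)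
    have hNpos : (0 : ℝ) < (NF (fun _ => True) X : ℝ) := by
      have : 0 < c₁ * X := by positivity
      linarith
    have k4 : |(NF P X : ℝ) - c * (NF (fun _ => True) X : ℝ)| ≤ ε / 4 * X := by
      rw [Real.dist_eq, div_sub' hNpos.ne', abs_div, abs_of_pos hNpos, div_lt_iff₀ hNpos,
        mul_comm (NF (fun _ => True) X : ℝ)] at k1
      have k5 : (NF (fun _ => True) X : ℝ) ≤ 3 * X := by
        have : (NF (fun _ => True) X : ℝ) ≤ 2 * X + 1 := by
          rw [NF_ct]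
          exact_mod_cast ct_le _ X
        linarith
      have k6 : ε / 12 * (NF (fun _ => True) X : ℝ) ≤ ε / 12 * (3 * X) := by gcongr
      linarith
    have a1 : (ct Q X : ℝ) ≤ NF P X + S.card := by exact_mod_cast hA X
    have a2 : (NF P X : ℝ) ≤ ct Q X + (S.card +
      2 * cnt (fun n => n.primeFactors.card < B) X) := by exact_mod_cast hB X
    have a3 : (NF (fun _ => True) X : ℝ) ≤ (ct (fun D => Fund D ∧ D ≠ 1) X : ℝ) + 1 := by
      exact_mod_cast hone X
    have a4 : (ct (fun D => Fund D ∧ D ≠ 1) X : ℝ) ≤ (NF (fun _ => True) X : ℝ) := by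
      exact_mod_cast hone' X
    have a5 : 4 * (S.card + |c|) / ε ≤ X := (Nat.le_ceil _).trans (by exact_mod_cast (by omega))
    rw [div_le_iff₀ hε] at a5
    have a6 : |c * (NF (fun _ => True) X : ℝ) - c * (ct (fun D => Fund D ∧ D ≠ 1) X : ℝ)| ≤ |c| := by
      rw [← mul_sub, abs_mul]
      have : |(NF (fun _ => True) X : ℝ) - (ct (fun D => Fund D ∧ D ≠ 1) X : ℝ)| ≤ 1 := by
        rw [abs_le]
        constructor <;> linarith
      calc |c| * _ ≤ |c| * 1 := by gcongr
        _ = |c| := mul_one _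
    rw [abs_le] at k4 a6 ⊢
    constructor
    · linarith [k4.1, k4.2, a6.1, a6.2, abs_nonneg c]
    · linarith [k4.1, k4.2, a6.1, a6.2, abs_nonneg c]

/-- **The density of the criterion.** -/
theorem dens_all (hC : S_CRIT) {Q : ℤ → Prop} (S : Finset ℤ) (B : ℕ)
    (h1 : ∀ D, Q D → (Fund D ∧ Pool.Agent.N875.P17.Sg (core D)) ∨ D ∈ S)
    (h2 : ∀ D, Fund D → Pool.Agent.N875.P17.Sg (core D) →
      Q D ∨ D ∈ S ∨ D.natAbs.primeFactors.card < B) :
    Tendsto (fun X : ℕ => (ct Q X : ℝ) / (ct (fun D => Fund D ∧ D ≠ 1) X : ℝ)) atTop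
      (𝓝 (c2 / 2)) := by
  refine dens dens17_fd S B (fun D hD => ?_) (fun D hF hD => ?_)
  · rcases h1 D hD with ⟨h3, h4⟩ | h3
    · exact Or.inl ⟨h3, (hC _ (fund_core h3).1).1 h4⟩
    · exact Or.inr h3
  · exact h2 D hF ((hC _ (fund_core hF).1).2 hD)

theorem c2_bounds : 0.4194 < c2 ∧ c2 < 0.4195 := Pool.Agent.Y948.CQ.t_C2.2.2.2

end Pool.Agent.N875.K17
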