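import Pool.Agent.N875.K17.Val2
import Pool.Agent.N875.K17.Den
import Pool.Agent.N891.QB.Desc
import Pool.Agent.N803.K17.Nrm
import Pool.Agent.N803.K17.Min
import Pool.Agent.N42.K17.GN
import Pool.Agent.N50.K17.T2N
import Pool.Agent.N400.K17.GU
import Pool.Agent.N391.K17.N17
import Pool.Agent.N391.K17.INF
import Pool.Agent.N459.K17.U17
import Pool.Agent.N499.K17.U2
import Pool.Agent.N530.K17.Cnt
import Pool.Agent.N849.K17.Tor
import Pool.Agent.N277.K17.LPR
import Pool.Agent.N232.K17.Tam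

/-!
# Project K17: all the parts together
-/

set_option autoImplicit false

namespace Pool.Agent.N875.K17

theorem hyps : Hyps where
  DESC := Pool.Agent.N891.QB.t_DESC
  NRM := Pool.Agent.N803.K17.t_NRM
  GN := Pool.Agent.N42.K17.t_GN
  N2 := Pool.Agent.N50.K17.t_2N
  N17 := Pool.Agent.N391.K17.t_17N
  GU := Pool.Agent.N400.K17.t_GU
  U2 := Pool.Agent.N499.K17.t_2U
  U17 := Pool.Agent.N459.K17.t_17U
  INF := Pool.Agent.N391.K17.t_INF
  CNT := Pool.Agent.N530.K17.t_CNT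
  TOR := Pool.Agent.N849.K17.t_TOR
  LPR := Pool.Agent.N277.K17.t_LPR
  TAM := Pool.Agent.N232.K17.t_TAM
  MIN := Pool.Agent.N803.K17.t_MIN
  VAL1 := t_VAL1
  VAL := t_VAL
  CRIT := t_CRIT

end Pool.Agent.N875.K17


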