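import Pool.Agent.N875.K17.Sel
import Pool.Agent.N875.P17.Fin
import Pool.Agent.Y687.MQ.Abs
import Pool.Agent.Y723.QT.Bc
import Pool.Agent.Y723.QT.Rf
import Pool.Agent.Y655.XT.Shavc

/-!
# Project K17: the points and the 2-primary part of `Ш` over the quadratic field
-/

set_option autoImplicit false
set_option linter.unusedVariables false
set_option linter.style.haveILetI false

open NumberField IsDedekindDomain WeierstrassCurve

namespace Pool.Agent.N875.K17

open scoped Classical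

open Pool.Agent.TH841.NF.D (Sha)
open Pool.Agent.TH841.NF (EF)
open Pool.Agent.N856.QB (S_DESC)
open Pool.Agent.N875.P17 (Em Sg EQm WS desc fin2_S)
open Pool.Agent.N875.X15 (Fin2 fin2_pow)
open Pool.Agent.N871.S17 (WN)
open Pool.Agent.Y682.XF (base Sha2)
open Pool.Agent.Y700 (VR)
open Pool.Agent.Y655.XT (isoVR)
open Pool.Agent.Y19.QT (EK FinGenK rkK EQ)

section

variable {m : ℤ} {K : Type} [Field K] [NumberField K] {r : K}

lemma adj_top (hq : Qd m K r) : IntermediateField.adjoin ℚ {r} = ⊤ := by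
  rw [eq_top_iff]
  rintro x -
  obtain ⟨a, b, rfl⟩ := hq.hK x
  have h1 : r ∈ IntermediateField.adjoin ℚ {r} :=
    IntermediateField.subset_adjoin _ _ (Set.mem_singleton r)
  have h2 : ∀ a : ℚ, (a : K) ∈ IntermediateField.adjoin ℚ {r} := fun a =>
    IntermediateField.algebraMap_mem _ a
  exact add_mem (h2 a) (mul_mem (h2 b) h1)

lemma em_disc : (base (Em 1) K).Δ ≠ 0 := by
  have e : (base (Em 1) K).Δ = ((2 ^ 12 * 17 ^ 2 : ℤ) : K) := by
    show ((Em 1).map (Int.castRingHom K)).Δ = _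
    rw [WeierstrassCurve.map_Δ]
    show (((Em 1).Δ : ℤ) : K) = _
    congr 1
  rw [e]
  exact_mod_cast (by norm_num : (2 ^ 12 * 17 ^ 2 : ℤ) ≠ 0)

/-- from the short equation -/
lemma vrS_K : VR (EF (-91) (-330) K) (base (Em 1) K) 1 (-5) 0 0 := by
  refine ⟨by norm_num, ?_, ?_, ?_, ?_, ?_⟩ <;>
    simp [EF, Em] <;> norm_num

lemma wn_disc : (base (WN 1) K).Δ ≠ 0 := by
  have e : (base (WN 1) K).Δ = ((17 ^ 2 : ℤ) : K) := by
    show ((WN 1).map (Int.castRingHom K)).Δ = _
    rw [WeierstrassCurve.map_Δ]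
    show (((WN 1).Δ : ℤ) : K) = _
    congr 1
  rw [e]
  exact_mod_cast (by norm_num : (17 ^ 2 : ℤ) ≠ 0)

/-- the group of the points is finite -/
theorem fin_pts (hm : Squarefree m) (h1 : m ≠ 1) (hS : Sg m) (hq : Qd m K r) :
    Finite (base (Em 1) K).toAffine.Point ∧ Finite (base (WN 1) K).toAffine.Point := by
  have hab : 4 * (-91 : ℤ) ^ 3 + 27 * (-330) ^ 2 ≠ 0 := by norm_num
  have hf := Pool.Agent.Y687.MQ.fg_gen K hab
  have hs : ∀ T : Finset (Fin 1), Module.finrank ℤ (EQ (-91 * (∏ i ∈ T, (fun _ : Fin 1 => m) i) ^ 2)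
      (-330 * (∏ i ∈ T, (fun _ : Fin 1 => m) i) ^ 3)) = 0 := by
    intro T
    refine Pool.Agent.Y687.finrank_zero_of_finite (Pool.Agent.Y687.finite_pt_of_set ?_)
    rcases Finset.eq_empty_or_nonempty T with rfl | hT
    · have := (desc squarefree_one sg_one).2.2
      rw [Finset.prod_empty]
      exact this
    · have : T = {0} := by
        ext i
        have hi : i = 0 := Subsingleton.elim _ _
        subst hi
        simp only [Finset.mem_singleton, iff_true]
        obtain ⟨j, hj⟩ := hT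
        have : j = 0 := Subsingleton.elim _ _
        rwa [this] at hj
      subst this
      rw [Finset.prod_singleton]
      exact (desc hm hS).2.2
  have h2 := Pool.Agent.Y687.MQ.rank_gen K (fun _ : Fin 1 => m) (fun _ => r) (fun _ => hq.hr)
    (by rw [Set.range_const]; exact adj_top hq) (fun _ => hm.ne_zero) hab hf
  rw [Finset.sum_eq_zero fun T _ => hs T] at h2
  unfold rkK at h2
  unfold FinGenK at hf
  have h3 : Module.finrank ℤ (EK K (-91) (-330)) = 0 := by
    convert Nat.le_zero.1 h2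
  have hf' : Module.Finite ℤ (EK K (-91) (-330)) := by
    convert hf
  have h4 : Finite (EK K (-91) (-330)) :=
    Module.finite_of_fg_torsion _ (Module.finrank_eq_zero_iff_isTorsion.1 h3)
  have h5 : Finite (EF (-91) (-330) K).toAffine.Point := h4
  have e1 := (vrS_K (K := K)).equiv em_disc
  have h6 : Finite (base (Em 1) K).toAffine.Point := Finite.of_equiv _ e1.symm.toEquiv
  have e2 := (Pool.Agent.N871.S17.vr (m := 1) (by norm_num) K).equiv wn_disc
  exact ⟨h6, Finite.of_equiv _ e2.symm.toEquiv⟩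

/-- the exponent of the 2-primary part -/
theorem exp_two (hm : Squarefree m) (hS : Sg m) (hq : Qd m K r) (j : ℕ)
    (x : Sha (base (WN 1) K)) (hx : 2 ^ j • x = 0) : 2 • x = 0 := by
  have h0 : Fin2 (WS 1) := (desc squarefree_one sg_one).2.1
  have hm2 : Fin2 (WS m) := (desc hm hS).2.1
  have h1 : Pool.Agent.Y723.QT.Kl (Sha (EF (-91) (-330) K)) (0 + 1) := by
    refine Pool.Agent.Y723.QT.base_one (r := r) (d := (m : ℚ)) (by rw [hq.hr]; simp)
      (by exact_mod_cast hm.ne_zero) (adj_top hq) ?_ ?_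
    · intro k y hy
      have : y = 0 := by
        have e : Pool.Agent.W307.RT.Sh (-91) (-330) = WS 1 := by
          unfold Pool.Agent.W307.RT.Sh WS
          norm_num
        revert y
        rw [e]
        intro y hy
        exact fin2_pow h0 k y hy
      rw [this, smul_zero]
    · have e : Pool.Agent.TH841.NF.tw (m : ℚ) (Pool.Agent.W307.RT.Sh (-91) (-330)) = WS m := by
        unfold Pool.Agent.TH841.NF.tw Pool.Agent.W307.RT.Sh WS
        apply WeierstrassCurve.ext
        · rfl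
        · show (m : ℚ) * 0 = 0
          rw [mul_zero]
        · rfl
        · show (m : ℚ) ^ 2 * ((-91 : ℤ) : ℚ) = _
          push_cast
          ring
        · show (m : ℚ) ^ 3 * ((-330 : ℤ) : ℚ) = _
          push_cast
          ring
      rw [e]
      intro k y hy
      rw [fin2_pow hm2 k y hy, smul_zero]
  have I1 : Sha (base (Em 1) K) ≃+ Sha (EF (-91) (-330) K) :=
    (isoVR (vrS_K (K := K)) em_disc).sha
  have I2 : Sha (base (WN 1) K) ≃+ Sha (base (Em 1) K) :=
    (isoVR (Pool.Agent.N871.S17.vr (m := 1) (by norm_num) K) wn_disc).sha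
  have h2 := h1 j (I1 (I2 x)) (by rw [← map_nsmul, ← map_nsmul, hx, map_zero, map_zero])
  rw [zero_add, pow_one, ← map_nsmul, ← map_nsmul, EmbeddingLike.map_eq_zero_iff,
    EmbeddingLike.map_eq_zero_iff] at h2
  exact h2

/-- the 2-primary part -/
theorem sha_main (hDESC : S_DESC) (hNRM : S_NRM) (hGN : S_GN) (h2N : S_2N) (h17N : S_17N)
    (hGU : S_GU) (h2U : S_2U) (h17U : S_17U) (hINF : S_INF)
    (hm : Squarefree m) (h1 : m ≠ 1) (hm1 : m ≠ -1) (h17 : m ≠ 17) (hS : Sg m) (hq : Qd m K r)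
    {S : Finset (ℤ × ℤ)} {k : ℕ}
    (hS1 : ∀ z ∈ S, Rel m z.1 z.2)
    (hS2 : ∀ z ∈ S, ∀ z' ∈ S, Eqv m z.1 z'.1 → Eqv m z.2 z'.2 → z = z')
    (hS3 : ∀ a b : ℤ, Rel m a b → ∃ z ∈ S, Eqv m a z.1 ∧ Eqv m b z.2) (hk : S.card = 4 ^ k) :
    1 ≤ k ∧ (∀ x : Sha2 K (WN 1), 2 • x = 0) ∧ Nat.card (Sha2 K (WN 1)) = 4 ^ (k - 1) := by
  obtain ⟨hf1, hc⟩ := sha_two hDESC hNRM hGN h2N h17N hGU h2U h17U hINF hm h1 hm1 h17 hS hq
    (fin_pts hm h1 hS hq).1 hS1 hS2 hS3 hk
  have hmem : ∀ x : Sha (base (WN 1) K), x ∈ Sha2 K (WN 1) ↔ 2 • x = 0 := by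
    intro x
    constructor
    · rintro ⟨j, hj⟩
      exact exp_two hm hS hq j x hj
    · intro hx
      exact ⟨1, by rw [pow_one]; exact hx⟩
  have I2 : Sha (base (WN 1) K) ≃+ Sha (base (Em 1) K) :=
    (isoVR (Pool.Agent.N871.S17.vr (m := 1) (by norm_num) K) wn_disc).sha
  have hcard : Nat.card (Sha2 K (WN 1)) = Nat.card {x : Sha (base (Em 1) K) // 2 • x = 0} := by
    refine Nat.card_congr (Equiv.trans (Equiv.subtypeEquivRight hmem)
      (Equiv.subtypeEquiv I2.toEquiv fun x => ?_))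
    show 2 • x = 0 ↔ 2 • (I2 x) = 0
    rw [← map_nsmul, EmbeddingLike.map_eq_zero_iff]
  have h2 : 1 ≤ k := by
    by_contra hlt
    have e0 : k = 0 := by omega
    rw [e0, pow_zero] at hc
    omega
  refine ⟨h2, fun x => Subtype.ext ((hmem x.1).1 x.2), ?_⟩
  rw [hcard]
  have e1 : k = (k - 1) + 1 := by omega
  rw [e1, pow_succ] at hc
  omega

end

end Pool.Agent.N875.K17
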