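import Pool.Agent.N875.K17.Val
import Pool.Agent.N875.K17.Mod
import Pool.Agent.N875.K17.Non
import Pool.Agent.N875.P17.Crit
import Pool.Agent.R413.SJ.ShaQ
import Pool.Agent.N916.MO.Hg

/-!
# Project K17 (helper875): the theorem from all the parts, and the dictionary between the squarefree
# number `m` and the field
-/

set_option autoImplicit false
set_option linter.unusedVariables false

open NumberField IsDedekindDomain Module NumberField.InfinitePlace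

namespace Pool.Agent.N875.K17

open scoped Classical

open Pool.Agent.TH841.NF.D (Sha)
open Pool.Agent.N856.QB (S_DESC)
open Pool.Agent.N875.P17 (Em Sg EQm fin2_iff)
open Pool.Agent.N875.X15 (PR Fin2)
open Pool.Agent.N871.S17 (WN)
open Pool.Agent.Y682.XF (base factor Tam realPeriod Sha2)
open Pool.Agent.N919.BS (Rt17 Fund core)
open Pool.Agent.N916.MO (G17)
open Pool.Agent.Y700 (VR)

/-- the criterion in the form of the density theorem -/
def S_CRIT : Prop := ∀ m : ℤ, Squarefree m → (Sg m ↔ Rt17 m ∧ G17 m)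

/-- all the parts -/
structure Hyps : Prop where
  DESC : S_DESC
  NRM : S_NRM
  GN : S_GN
  N2 : S_2N
  N17 : S_17N
  GU : S_GU
  U2 : S_2U
  U17 : S_17U
  INF : S_INF
  CNT : S_CNT
  TOR : S_TOR
  LPR : S_LPR
  TAM : S_TAM
  MIN : S_MIN
  VAL1 : S_VAL1
  VAL : S_VAL
  CRIT : S_CRIT

section

variable {m : ℤ} {K : Type} [Field K] [NumberField K] {r : K}

theorem sg_rt (hs : Squarefree m) (hS : Sg m) : Rt17 m := by
  rcases Pool.Agent.N809.P17.sg_parity hs hS with h | h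
  · exact Or.inr h
  · exact Or.inl h

/-- **`Ш(E/K)[2^∞]`** -/
theorem sha_all (H : Hyps) (hm : Squarefree m) (h1 : m ≠ 1) (hm1 : m ≠ -1) (h17 : m ≠ 17)
    (hS : Sg m) (hq : Qd m K r) : rr m ≤ tt m ∧ (∀ x : Sha2 K (WN 1), 2 • x = 0) ∧
      Nat.card (Sha2 K (WN 1)) = 4 ^ (tt m - rr m) := by
  obtain ⟨S, hS1, hS2, hS3, hk⟩ := H.CNT m hm h1 hm1 h17
    (Pool.Agent.N809.P17.sg_parity hm hS) (nt17 hm h1 hS) (ntpos hm h1 hS)
  obtain ⟨h2, h3, h4⟩ := sha_main H.DESC H.NRM H.GN H.N2 H.N17 H.GU H.U2 H.U17 H.INF hm h1 hm1 h17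
    hS hq hS1 hS2 hS3 hk
  refine ⟨by omega, h3, ?_⟩
  rw [h4]
  congr 1
  omega

/-! ### dictionary -/

theorem PR_Dm (h0 : m ≠ 0) : (Dm m).natAbs.primeFactors = PR m := by
  unfold Dm PR
  split_ifs with h
  · rfl
  · have hk : m.natAbs ≠ 0 := Int.natAbs_ne_zero.2 h0
    have e : (4 * m).natAbs = 2 ^ 2 * m.natAbs := by omega
    rw [e, Nat.primeFactors_mul (by norm_num) hk, Nat.primeFactors_mul (by norm_num) hk,
      Nat.primeFactors_pow 2 (by norm_num)]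

theorem tt_Dm (h0 : m ≠ 0) : ((Dm m).natAbs.primeFactors.erase 17).card = tt m := by
  rw [PR_Dm h0]
  rfl

theorem jac_Dm : jacobiSym (Dm m) 17 = jacobiSym m 17 := by
  unfold Dm
  split_ifs with h
  · rfl
  · rw [jacobiSym.mul_left]
    have : jacobiSym 4 17 = 1 := by decide +kernel
    rw [this, one_mul]

theorem Dm_pos : 0 < Dm m ↔ 0 < m := by
  unfold Dm
  split_ifs <;> omega

theorem Dm_neg : Dm m < 0 ↔ m < 0 := by
  unfold Dm
  split_ifs <;> omega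

theorem rt_Dm : Rt17 (Dm m) ↔ Rt17 m := by
  unfold Rt17
  rw [Dm_pos, Dm_neg, jac_Dm]

theorem inf_eq (hm : Squarefree m) (h1 : m ≠ 1) (hq : Qd m K r) :
    nrRealPlaces K + nrComplexPlaces K = rr m := by
  rcases lt_or_gt_of_ne hm.ne_zero with h | h
  · obtain ⟨h2, h3⟩ := nr_neg hm h1 h hq
    rw [h2, h3]
    unfold rr
    rw [if_neg (by omega)]
  · obtain ⟨h2, h3⟩ := nr_pos hm h1 h hq
    rw [h2, h3]
    unfold rr
    rw [if_pos h]

theorem vr_four (m : ℤ) : VR (EQm (4 * m)) (EQm m) 2 0 0 0 := by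
  refine ⟨by norm_num, ?_, ?_, ?_, ?_, ?_⟩ <;> simp [Em] <;> ring

theorem em_ne {m : ℤ} (h0 : m ≠ 0) : (EQm m).Δ ≠ 0 := by
  show ((Em m).map (Int.castRingHom ℚ)).Δ ≠ 0
  rw [WeierstrassCurve.map_Δ, Pool.Agent.N875.P17.Em_Δ]
  have : (2 ^ 12 * 17 ^ 2 * m ^ 6 : ℤ) ≠ 0 := mul_ne_zero (by norm_num) (pow_ne_zero 6 h0)
  rw [eq_intCast]
  exact_mod_cast this

theorem fin2_four {m : ℤ} (h0 : m ≠ 0) : Fin2 (EQm (4 * m)) ↔ Fin2 (EQm m) := by
  have hT : Pool.Agent.Z702.S_TRN := Pool.Agent.Z932.Z702.t_TRN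
  obtain ⟨h1, h2, -⟩ := hT _ _ _ _ _ _ (vr_four m) (em_ne h0)
  exact and_congr h1 h2

/-- rank zero and `Ш[2] = 0` for the twist -/
theorem sel_iff (hm : Squarefree m) : (Finite (base (Em (Dm m)) ℚ).toAffine.Point ∧
    ∀ x : Sha (base (Em (Dm m)) ℚ), 2 • x = 0 → x = 0) ↔ Sg m := by
  rw [← fin2_iff hm]
  have h1 := (Pool.Agent.R413.SJ.ShaQ.two_iff (EQm (Dm m))).symm
  have h2 : (Finite (base (Em (Dm m)) ℚ).toAffine.Point ∧
      ∀ x : Sha (base (Em (Dm m)) ℚ), 2 • x = 0 → x = 0) ↔ Fin2 (EQm (Dm m)) := by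
    unfold Pool.Agent.N875.X15.Fin2
    refine and_congr Iff.rfl ?_
    refine Iff.trans h1 (forall_congr' fun x => ?_)
    rw [two_nsmul]
  rw [h2]
  unfold Dm
  split_ifs with h
  · exact Iff.rfl
  · exact fin2_four hm.ne_zero

end

/-! ### discriminants -/

theorem fund_Dm {m : ℤ} (hm : Squarefree m) : Fund (Dm m) ∧ core (Dm m) = m := by
  have h0 : m % 4 ≠ 0 := by
    intro h
    have h1 := hm 2 (by
      obtain ⟨k, hk⟩ := Int.dvd_of_emod_eq_zero h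
      exact ⟨k, by rw [hk]; ring⟩)
    rw [Int.isUnit_iff] at h1
    omega
  unfold Dm Fund core
  split_ifs with h h2 h2
  · exact ⟨Or.inl ⟨hm, h⟩, rfl⟩
  · omega
  · omega
  · exact ⟨Or.inr ⟨m, rfl, hm, by omega⟩, by omega⟩

theorem fund_core {D : ℤ} (h : Fund D) : Squarefree (core D) ∧ Dm (core D) = D := by
  unfold core Dm
  rcases h with ⟨h1, h2⟩ | ⟨m, rfl, h1, h2⟩
  · rw [if_pos (by omega : D % 2 = 1), if_pos h2]
    exact ⟨h1, rfl⟩
  · have e : 4 * m / 4 = m := by omega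
    rw [if_neg (by omega : ¬ 4 * m % 2 = 1), e, if_neg (by omega)]
    exact ⟨h1, rfl⟩

/-- the discriminants of the quadratic fields -/
def IsDisc (D : ℤ) : Prop := ∃ (K : Type) (_ : Field K) (_ : NumberField K),
  finrank ℚ K = 2 ∧ discr K = D

theorem isDisc_iff {D : ℤ} : IsDisc D ↔ Fund D ∧ D ≠ 1 := by
  constructor
  · rintro ⟨K, i1, i2, h2, rfl⟩
    obtain ⟨m, r, hm, h1, hr⟩ := exists_m (K := K) h2
    have hq := qd_of hm h1 h2 hr
    rw [discr_Dm hm h1 hq]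
    obtain ⟨h3, h4⟩ := fund_Dm hm
    refine ⟨h3, fun h5 => ?_⟩
    rw [h5] at h4
    apply h1
    rw [← h4]
    rfl
  · rintro ⟨hF, h1⟩
    obtain ⟨h2, h3⟩ := fund_core hF
    have h4 : core D ≠ 1 := by
      intro h
      rw [h] at h3
      exact h1 h3.symm
    obtain ⟨K, i1, i2, r, h5, h6⟩ := exists_K h2 h4
    refine ⟨K, i1, i2, h5, ?_⟩
    rw [discr_Dm h2 h4 (qd_of h2 h4 h5 h6), h3]

end Pool.Agent.N875.K17
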