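import Pool.Agent.N875.K17.Stm
import Pool.Agent.R428.OP.Disc
import Pool.Agent.Y797.FK.Disc
import Pool.Agent.N919.BS.Sum

/-!
# Project K17 (helper875): the quadratic fields and their discriminants
-/

set_option autoImplicit false
set_option linter.unusedVariables false

open NumberField IsDedekindDomain Module

namespace Pool.Agent.N875.K17

open scoped Classical

open Pool.Agent.R428.OP.Disc

section
variable {K : Type} [Field K] [NumberField K] {m : ℤ} {d : K}

/-- the discriminant for `m` not `1` modulo `4` -/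
theorem discr_four (hsq : Squarefree m) (hne : m ≠ 1) (h4 : m % 4 ≠ 1) (hd : d ^ 2 = (m : K))
    (hK : ∀ x : K, ∃ a b : ℚ, x = (a : K) + (b : K) * d) : discr K = 4 * m := by
  have hn : ∀ q : ℚ, algebraMap ℚ K q ≠ d := fun q => not_rat hsq hne hd q
  have hm0 : m % 4 = 2 ∨ m % 4 = 3 := by
    have h0 : m % 4 ≠ 0 := by
      intro h
      have h1 := hsq 2 (by
        obtain ⟨k, hk⟩ := Int.dvd_of_emod_eq_zero h
        exact ⟨k, by rw [hk]; ring⟩)
      rw [Int.isUnit_iff] at h1
      omega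
    omega
  have hint : IsIntegral ℤ d := by
    have h2 : IsIntegral ℤ (d ^ 2) := by
      rw [hd]
      have := isIntegral_algebraMap (R := ℤ) (A := K) (x := m)
      simpa using this
    exact h2.of_pow (by norm_num)
  obtain ⟨θ, hθ⟩ : ∃ θ : 𝓞 K, (θ : K) = d := ⟨⟨_, hint⟩, rfl⟩
  have hθ' : d = algebraMap ℚ K 0 + algebraMap ℚ K 1 * d := by
    rw [map_zero, map_one]
    ring
  have key := discr_of_gen (finr hn hK) θ
    (linInd_int hn _ 0 1 (by norm_num) (by rw [hθ]; exact hθ')) (by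
      intro x
      obtain ⟨t, u, hdv, hx⟩ := coords hn hsq hd hK (x : K) x.2
      have htu : t % 2 = 0 ∧ u % 2 = 0 := by
        obtain ⟨c, hc⟩ := hdv
        obtain ⟨q, r, hq, hr⟩ : ∃ q r : ℤ, m = 4 * q + r ∧ (r = 2 ∨ r = 3) :=
          ⟨m / 4, m % 4, by omega, hm0⟩
        rw [hq] at hc
        obtain ⟨t', e, he, rfl⟩ : ∃ t' e : ℤ, (e = 0 ∨ e = 1) ∧ t = 2 * t' + e :=
          ⟨t / 2, t % 2, by omega, by omega⟩
        obtain ⟨u', f, hf, rfl⟩ : ∃ u' f : ℤ, (f = 0 ∨ f = 1) ∧ u = 2 * u' + f :=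
          ⟨u / 2, u % 2, by omega, by omega⟩
        have h5 : e ^ 2 - r * f ^ 2 = 4 * (c - t' ^ 2 - t' * e + q * (2 * u' + f) ^ 2 +
            r * (u' ^ 2 + u' * f)) := by
          linear_combination hc
        rcases he with rfl | rfl <;> rcases hf with rfl | rfl <;> rcases hr with rfl | rfl <;>
          norm_num at h5 <;> omega
      obtain ⟨t', rfl⟩ : ∃ t', t = 2 * t' := ⟨t / 2, by omega⟩
      obtain ⟨u', rfl⟩ : ∃ u', u = 2 * u' := ⟨u / 2, by omega⟩
      refine ⟨t', u', ?_⟩
      apply RingOfIntegers.ext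
      rw [coe_lin, hθ]
      apply mul_left_cancel₀ (two_ne_zero : (2 : K) ≠ 0)
      rw [hx]
      push_cast
      ring)
  rw [hθ] at key
  have e2 : d ^ 2 = algebraMap ℚ K (m : ℚ) + algebraMap ℚ K 0 * d := by
    rw [hd, map_zero, zero_mul, add_zero, eq_ratCast, Rat.cast_intCast]
  rw [e2, trace_eq hn hK hd] at key
  have e3 : Algebra.trace ℚ K d = 2 * 0 := by
    conv_lhs => rw [hθ']
    exact trace_eq hn hK hd 0 1
  rw [e3] at key
  have h6 : ((discr K : ℤ) : ℚ) = ((4 * m : ℤ) : ℚ) := by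
    rw [key]; push_cast; ring
  exact_mod_cast h6

/-- the discriminant of `ℚ(√m)` -/
def Dm (m : ℤ) : ℤ := if m % 4 = 1 then m else 4 * m

theorem discr_Dm (hsq : Squarefree m) (hne : m ≠ 1) {r : K} (hq : Qd m K r) : discr K = Dm m := by
  unfold Dm
  split_ifs with h
  · exact discr_eq hsq hne h hq.hr hq.hK
  · exact discr_four hsq hne h hq.hr hq.hK

theorem qd_of (hsq : Squarefree m) (hne : m ≠ 1) (h2 : finrank ℚ K = 2) {r : K}
    (hr : r ^ 2 = (m : K)) : Qd m K r := by
  have hn : ∀ q : ℚ, algebraMap ℚ K q ≠ r := fun q => not_rat hsq hne hr q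
  refine ⟨hr, fun x => ?_⟩
  have hli := linInd hn
  have hspan := hli.span_eq_top_of_card_eq_finrank' (by rw [h2]; rfl)
  have hx : x ∈ Submodule.span ℚ (Set.range ![(1 : K), r]) := by rw [hspan]; trivial
  rw [Matrix.range_cons, Matrix.range_cons, Matrix.range_empty, Set.union_empty,
    Set.singleton_union, Submodule.mem_span_pair] at hx
  obtain ⟨a, b, hab⟩ := hx
  refine ⟨a, b, ?_⟩
  rw [← hab, Algebra.smul_def, Algebra.smul_def, mul_one, eq_ratCast, eq_ratCast]

theorem Qd.finrank (hsq : Squarefree m) (hne : m ≠ 1) {r : K} (hq : Qd m K r) :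
    Module.finrank ℚ K = 2 :=
  finr (fun q => not_rat hsq hne hq.hr q) hq.hK

/-- the quadratic field exists -/
theorem exists_K (hsq : Squarefree m) (hne : m ≠ 1) : ∃ (K : Type) (_ : Field K)
    (_ : NumberField K) (r : K), Module.finrank ℚ K = 2 ∧ r ^ 2 = (m : K) := by
  have hq : ∀ q : ℚ, q ^ 2 ≠ (m : ℚ) := sq_ne hsq hne
  obtain ⟨z, hz⟩ := IsAlgClosed.exists_pow_nat_eq ((m : ℤ) : ℂ) (n := 2) two_pos
  have hint : _root_.IsIntegral ℚ z := by
    have h1 : _root_.IsIntegral ℚ (z ^ 2) := by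
      rw [hz]
      have := isIntegral_algebraMap (R := ℚ) (A := ℂ) (x := (m : ℚ))
      rwa [eq_ratCast, Rat.cast_intCast] at this
    exact h1.of_pow two_pos
  haveI : FiniteDimensional ℚ (IntermediateField.adjoin ℚ {z}) :=
    IntermediateField.adjoin.finiteDimensional hint
  haveI : NumberField (IntermediateField.adjoin ℚ {z}) := { }
  refine ⟨IntermediateField.adjoin ℚ {z}, inferInstance, inferInstance,
    ⟨z, IntermediateField.mem_adjoin_simple_self ℚ z⟩, ?_, ?_⟩
  · rw [IntermediateField.adjoin.finrank hint]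
    have hmin : minpoly ℚ z = Polynomial.X ^ 2 - Polynomial.C (m : ℚ) := by
      symm
      apply minpoly.eq_of_irreducible_of_monic
      · have hm : (Polynomial.X ^ 2 - Polynomial.C (m : ℚ)).Monic := by monicity!
        have h3 : (Polynomial.X ^ 2 - Polynomial.C (m : ℚ)).natDegree = 2 := by compute_degree!
        rw [Polynomial.irreducible_iff_roots_eq_zero_of_degree_le_three (by omega) (by omega)]
        rw [Multiset.eq_zero_iff_forall_notMem]
        intro q hq'
        rw [Polynomial.mem_roots hm.ne_zero, Polynomial.IsRoot.def] at hq'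
        simp only [Polynomial.eval_sub, Polynomial.eval_pow, Polynomial.eval_X,
          Polynomial.eval_C] at hq'
        exact hq q (by linarith)
      · simp [hz]
      · monicity!
    rw [hmin]
    compute_degree!
  · apply Subtype.ext
    show z ^ 2 = ((m : ℤ) : ℂ)
    exact hz

/-- squarefree part of an integer -/
theorem sqfree_part {n : ℤ} (hn : n ≠ 0) : ∃ (k : ℤ) (m : ℤ), k ≠ 0 ∧ Squarefree m ∧ n = k ^ 2 * m := by
  obtain ⟨a, b, hab, ha⟩ := Nat.sq_mul_squarefree n.natAbs
  have hb : b ≠ 0 := by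
    rintro rfl
    rw [zero_pow two_ne_zero, zero_mul] at hab
    exact hn (Int.natAbs_eq_zero.1 hab.symm)
  have h1 : ((n.natAbs : ℕ) : ℤ) = (b : ℤ) ^ 2 * a := by
    rw [← hab]
    push_cast
    ring
  rcases le_or_gt 0 n with h | h
  · refine ⟨b, a, by exact_mod_cast hb, Int.squarefree_natCast.2 ha, ?_⟩
    rw [← h1, Int.natAbs_of_nonneg h]
  · refine ⟨b, -a, by exact_mod_cast hb, ?_, ?_⟩
    · intro x hx
      rw [dvd_neg] at hx
      exact Int.squarefree_natCast.2 ha x hx
    · have : ((n.natAbs : ℕ) : ℤ) = -n := by omega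
      rw [this] at h1
      linarith

/-- all the quadratic fields are of the form `ℚ(√m)` -/
theorem exists_m (h2 : Module.finrank ℚ K = 2) : ∃ (m : ℤ) (r : K), Squarefree m ∧ m ≠ 1 ∧
    r ^ 2 = (m : K) := by
  obtain ⟨x, hx⟩ : ∃ x : K, ∀ q : ℚ, x ≠ (q : K) := by
    by_contra hcon
    push Not at hcon
    have hsur : Function.Surjective (algebraMap ℚ K) := by
      intro x
      obtain ⟨q, hq⟩ := hcon x
      exact ⟨q, by rw [hq, eq_ratCast]⟩
    have h3 : Module.finrank ℚ K = 1 := by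
      have e : ℚ ≃ₗ[ℚ] K := LinearEquiv.ofBijective (Algebra.linearMap ℚ K)
        ⟨(algebraMap ℚ K).injective, hsur⟩
      rw [← e.finrank_eq, Module.finrank_self]
    omega
  -- a quadratic equation
  obtain ⟨a, b, c, hc, he⟩ : ∃ a b c : ℚ, c ≠ 0 ∧ (c : K) * x ^ 2 + (b : K) * x + (a : K) = 0 := by
    set p := minpoly ℚ x with hp
    have hd : p.natDegree ≤ 2 := by
      have := minpoly.natDegree_le (A := ℚ) x
      rwa [h2] at this
    have hp0 : p ≠ 0 := minpoly.ne_zero (Algebra.IsIntegral.isIntegral x)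
    have h3 := Polynomial.eq_quadratic_of_degree_le_two (p := p)
      (Polynomial.natDegree_le_iff_degree_le.1 hd)
    have h4 : Polynomial.aeval x p = 0 := minpoly.aeval ℚ x
    have h5 : ((p.coeff 2 : ℚ) : K) * x ^ 2 + ((p.coeff 1 : ℚ) : K) * x +
        ((p.coeff 0 : ℚ) : K) = 0 := by
      rw [h3] at h4
      simpa only [map_add, map_mul, map_pow, Polynomial.aeval_C, Polynomial.aeval_X,
        eq_ratCast] using h4
    refine ⟨p.coeff 0, p.coeff 1, p.coeff 2, fun h6 => ?_, h5⟩
    rw [h6, Rat.cast_zero, zero_mul, zero_add] at h5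
    by_cases h7 : p.coeff 1 = 0
    · rw [h7, Rat.cast_zero, zero_mul, zero_add] at h5
      have h8 : p.coeff 0 = 0 := by exact_mod_cast h5
      apply hp0
      rw [h3, h6, h7, h8]
      simp
    · have h9 : ((p.coeff 1 : ℚ) : K) ≠ 0 := by exact_mod_cast h7
      apply hx (-(p.coeff 0) / p.coeff 1)
      rw [Rat.cast_div, Rat.cast_neg, eq_div_iff h9]
      linear_combination h5
  set q : ℚ := b ^ 2 - 4 * a * c with hq
  have hsq : ((2 * c : ℚ) * x + (b : K)) ^ 2 = (q : K) := by
    rw [hq]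
    push_cast
    linear_combination (4 * (c : K)) * he
  have hden : (q.den : K) ≠ 0 := by exact_mod_cast q.den_nz
  have hqK : (q : K) * q.den = q.num := by
    have : q * q.den = q.num := Rat.mul_den_eq_num q
    exact_mod_cast this
  have hc2 : ((2 * c : ℚ) : K) ≠ 0 := by
    have : (2 * c : ℚ) ≠ 0 := mul_ne_zero two_ne_zero hc
    exact_mod_cast this
  have hne0 : ((2 * c : ℚ) : K) * x + (b : K) ≠ 0 := by
    intro h
    apply hx (-b / (2 * c))
    rw [Rat.cast_div, Rat.cast_neg, eq_div_iff hc2]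
    linear_combination h
  have hint : q.num * q.den ≠ 0 := by
    refine mul_ne_zero (fun h => ?_) (by exact_mod_cast q.den_nz)
    have h0 : q = 0 := Rat.num_eq_zero.1 h
    rw [h0, Rat.cast_zero] at hsq
    exact hne0 (pow_eq_zero_iff two_ne_zero |>.1 hsq)
  obtain ⟨k, m, hk, hm, hkm⟩ := sqfree_part hint
  have hkK : (k : K) ≠ 0 := by exact_mod_cast hk
  have hr : ((((2 * c : ℚ) : K) * x + (b : K)) * q.den / k) ^ 2 = (m : K) := by
    have h3 : ((q.num * q.den : ℤ) : K) = (k : K) ^ 2 * m := by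
      rw [hkm]
      push_cast
      ring
    push_cast at h3
    rw [div_pow, mul_pow, hsq, div_eq_iff (pow_ne_zero 2 hkK)]
    linear_combination h3 + (q.den : K) * hqK
  refine ⟨m, _, hm, fun h1 => ?_, hr⟩
  rw [h1, Int.cast_one] at hr
  have h5 : ∀ e : ℚ, (((2 * c : ℚ) : K) * x + (b : K)) * q.den / k ≠ (e : K) := by
    intro e h
    rw [div_eq_iff hkK] at h
    apply hx ((e * k / q.den - b) / (2 * c))
    have hcK : (c : K) ≠ 0 := by exact_mod_cast hc
    push_cast at h ⊢
    rw [eq_div_iff (mul_ne_zero two_ne_zero hcK), eq_sub_iff_add_eq, eq_div_iff hden]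
    linear_combination h
  have h6 : ∀ w : K, w ^ 2 = 1 → w = 1 ∨ w = -1 := fun w hw => by
    have h7 : (w - 1) * (w + 1) = 0 := by linear_combination hw
    rcases mul_eq_zero.1 h7 with h8 | h8
    · exact Or.inl (sub_eq_zero.1 h8)
    · exact Or.inr (eq_neg_of_add_eq_zero_left h8)
  rcases h6 _ hr with h | h
  · exact h5 1 (by rw [h, Rat.cast_one])
  · exact h5 (-1) (by rw [h, Rat.cast_neg, Rat.cast_one])

end

end Pool.Agent.N875.K17
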