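import Pool.Agent.N875.K17.Rat
import Pool.Agent.N875.P17.Rank
import Pool.Agent.N875.P17.Mat

/-!
# Project K17: the order of the 2-Selmer group over the quadratic field
-/

set_option autoImplicit false
set_option linter.unusedVariables false

open NumberField IsDedekindDomain

namespace Pool.Agent.N875.K17

open scoped Classical

open Pool.Agent.TH841.SH (SelG IsR)
open Pool.Agent.TH841.NF.D (Sha)
open Pool.Agent.N856.QB (Lo Se sqf_of_rat sqf_eq sq_mul_class exists_place S_DESC)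
open Pool.Agent.N875.P17 (Em Sg SC sc_of_sg sel_sub17 t3)
open Pool.Agent.N875.X15 (PR)
open Pool.Agent.Y682.XF (base)

/-- the criterion for `m = 1` -/
lemma sg_one : Sg 1 := by
  intro x y _ _ _ p hp
  exfalso
  have : PR 1 = ∅ := by
    unfold PR
    simp
  rw [this] at hp
  exact absurd hp (Finset.notMem_empty p)

section

variable {m : ℤ} {K : Type} [Field K] [NumberField K] {r : K}

/-- the norms of the Selmer classes are squares -/
theorem norm_sq (hN : S_NRM) (hm : Squarefree m) (h1 : m ≠ 1) (hm1 : m ≠ -1) (h17 : m ≠ 17)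
    (hS : Sg m) (hq : Qd m K r) {z : K × K} (hz : z ∈ Se K 0 (-1) 16) :
    IsSquare (Algebra.norm ℚ z.1) ∧ IsSquare (Algebra.norm ℚ z.2) := by
  have hm0 := hm.ne_zero
  obtain ⟨u, hu, s, hs, hus⟩ := sqf_of_rat ((Algebra.norm_ne_zero_iff (R := ℚ)).2 hz.1)
  obtain ⟨v, hv, t, ht, hvt⟩ := sqf_of_rat ((Algebra.norm_ne_zero_iff (R := ℚ)).2 hz.2.1)
  have g1 : IsSquare (Algebra.norm ℚ z.1 * u) := ⟨u * s, by rw [hus]; ring⟩
  have g2 : IsSquare (Algebra.norm ℚ z.2 * v) := ⟨v * t, by rw [hvt]; ring⟩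
  have k1 := hN m hm h1 K r hq 0 (-1) 16 (by omega) (by omega) (by omega) z hz u v hu hv g1 g2
  have hz' := Se.scale hm0 hq hz
  have k2 := hN m hm h1 K r hq _ _ _ (by
      intro h3
      apply hm0
      linarith) (by
      intro h3
      apply hm0
      linarith) (by
      intro h3
      apply hm0
      linarith) z hz' u v hu hv g1 g2
  have k1' := sel_sub17 (m := 1) squarefree_one (sc_of_sg squarefree_one sg_one) (by
    simpa using k1)
  have e2 : (-1 : ℤ) * m = -m := by ring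
  rw [zero_mul, e2] at k2
  have k2' := sel_sub17 hm (sc_of_sg hm hS) k2
  have ht1 : t3 1 = 17 := by decide
  rw [ht1] at k1'
  simp only [Set.mem_insert_iff, Set.mem_singleton_iff, Prod.mk.injEq] at k1' k2'
  have huv : u = 1 ∧ v = 1 := by
    rcases k1' with ⟨rfl, rfl⟩ | ⟨rfl, rfl⟩ | ⟨rfl, rfl⟩ | ⟨rfl, rfl⟩
    · exact ⟨rfl, rfl⟩
    all_goals
      rcases k2' with ⟨a1, a2⟩ | ⟨a1, a2⟩ | ⟨a1, a2⟩ | ⟨a1, a2⟩
      all_goals omega
  obtain ⟨rfl, rfl⟩ := huv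
  rw [Int.cast_one, mul_one] at g1 g2
  exact ⟨g1, g2⟩

lemma Se_congr {a b c : ℤ} {z z' : K × K} (h : z ∈ Se K a b c) (h1 : z'.1 ≠ 0) (h2 : z'.2 ≠ 0)
    (g1 : IsSquare (z.1 * z'.1)) (g2 : IsSquare (z.2 * z'.2)) : z' ∈ Se K a b c :=
  Pool.Agent.N856.QB.Se.congr h h1 h2 g1 g2

/-- every class has a representative -/
theorem exists_rep (hNRM : S_NRM) (hGN : S_GN) (h2N : S_2N) (h17N : S_17N) (hINF : S_INF)
    (hm : Squarefree m) (h1 : m ≠ 1) (hm1 : m ≠ -1) (h17 : m ≠ 17) (hS : Sg m) (hq : Qd m K r)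
    {z : K × K} (hz : z ∈ Se K 0 (-1) 16) :
    ∃ a b : ℤ, Rel m a b ∧ IsSquare (z.1 * (a : K)) ∧ IsSquare (z.2 * (b : K)) := by
  have key : ∀ x : K, x ≠ 0 → IsSquare (Algebra.norm ℚ x) → ∃ a : ℤ, Squarefree a ∧
      IsSquare (x * (a : K)) := by
    intro x hx hN
    obtain ⟨q, hq0, hxq⟩ := rat_class hm h1 hq hx hN
    obtain ⟨u, hu, s, hs, rfl⟩ := sqf_of_rat hq0
    have hs' : (s : K) ≠ 0 := by exact_mod_cast hs
    refine ⟨u, hu, ?_⟩
    obtain ⟨t, ht⟩ := hxq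
    refine ⟨t / s, ?_⟩
    push_cast at ht
    rw [div_mul_div_comm, eq_div_iff (mul_ne_zero hs' hs')]
    linear_combination ht
  obtain ⟨g1, g2⟩ := norm_sq hNRM hm h1 hm1 h17 hS hq hz
  obtain ⟨a, ha, ha2⟩ := key z.1 hz.1 g1
  obtain ⟨b, hb, hb2⟩ := key z.2 hz.2.1 g2
  have haK : (a : K) ≠ 0 := by exact_mod_cast ha.ne_zero
  have hbK : (b : K) ≠ 0 := by exact_mod_cast hb.ne_zero
  have hS' : ((a : K), (b : K)) ∈ Se K 0 (-1) 16 := Se_congr hz haK hbK ha2 hb2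
  have hLo : ∀ w : HeightOneSpectrum (𝓞 K), LoE K w a b := by
    intro w
    have := hS'.2.2.1 w
    simp only [map_intCast] at this
    exact this
  have hLi : ∀ v : InfinitePlace K, Lo v.Completion 0 (-1) 16
      (a : v.Completion) (b : v.Completion) := by
    intro w
    have := hS'.2.2.2 w
    simp only [map_intCast] at this
    exact this
  have hgood : ∀ p : ℕ, p.Prime → p ≠ 2 → p ≠ 17 → ¬ (p : ℤ) ∣ m → ¬ (p : ℤ) ∣ a ∧ ¬ (p : ℤ) ∣ b := by
    intro p hp hp2 hp17 hpm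
    obtain ⟨w, hw⟩ := exists_place (K := K) hp
    refine hGN m hm h1 K r hq p hp ?_ w hw a b ha hb (hLo w)
    intro h3
    have hpz := Nat.prime_iff_prime_int.1 hp
    rcases hpz.dvd_or_dvd h3 with h4 | h4
    · have h5 : p ∣ 2 * 17 := by exact_mod_cast h4
      rcases hp.dvd_mul.1 h5 with h6 | h6
      · exact hp2 ((Nat.prime_dvd_prime_iff_eq hp Nat.prime_two).1 h6)
      · exact hp17 ((Nat.prime_dvd_prime_iff_eq hp (by norm_num)).1 h6)
    · exact hpm h4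
  obtain ⟨w2, hw2⟩ := exists_place (K := K) Nat.prime_two
  obtain ⟨w17, hw17⟩ := exists_place (K := K) (show Nat.Prime 17 by norm_num)
  obtain ⟨v⟩ : Nonempty (InfinitePlace K) := inferInstance
  refine ⟨a, b, ⟨ha, hb, ?_, ?_, ?_, ?_, ?_⟩, ha2, hb2⟩
  · intro p hp hp2 hp17 hpa
    by_contra h3
    exact (hgood p hp hp2 hp17 h3).1 hpa
  · intro p hp hp2 hp17 hpa
    by_contra h3
    exact (hgood p hp hp2 hp17 h3).2 hpa
  · exact h2N m hm h1 K r hq w2 (by exact_mod_cast hw2) a b ha hb (hLo w2)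
  · exact h17N m hm h1 K r hq w17 (by exact_mod_cast hw17) a b ha hb (hLo w17)
  · exact (hINF m hm h1 K r hq v a b ha.ne_zero hb.ne_zero).1 (hLi v)

/-- the pairs of `Rel` are in the Selmer group -/
theorem suf (hGU : S_GU) (h2U : S_2U) (h17U : S_17U) (hINF : S_INF) (hm : Squarefree m) (h1 : m ≠ 1)
    (hq : Qd m K r) {a b : ℤ} (hR : Rel m a b) : ((a : K), (b : K)) ∈ Se K 0 (-1) 16 := by
  have ha0 := hR.sa.ne_zero
  have hb0 := hR.sb.ne_zero
  have hLo : ∀ w : HeightOneSpectrum (𝓞 K), LoE K w a b := by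
    intro w
    obtain ⟨p, hp, hpw⟩ := Pool.Agent.Y682.exists_prime_mem w
    by_cases hp2 : p = 2
    · subst hp2
      exact h2U m hm h1 K r hq w (by exact_mod_cast hpw) a b hR.sa hR.sb hR.c2
    by_cases hp17 : p = 17
    · subst hp17
      exact h17U m hm h1 K r hq w (by exact_mod_cast hpw) a b hR.sa hR.sb hR.c17
    refine hGU m hm h1 K r hq p hp ?_ w hpw a b hR.sa hR.sb (hR.da p hp hp2 hp17)
      (hR.db p hp hp2 hp17)
    intro h3
    have h5 : p ∣ 2 * 17 := h3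
    rcases hp.dvd_mul.1 h5 with h6 | h6
    · exact hp2 ((Nat.prime_dvd_prime_iff_eq hp Nat.prime_two).1 h6)
    · exact hp17 ((Nat.prime_dvd_prime_iff_eq hp (by norm_num)).1 h6)
  refine ⟨(Int.cast_ne_zero.2 ha0 : (a : K) ≠ 0), (Int.cast_ne_zero.2 hb0 : (b : K) ≠ 0),
    fun w => ?_, fun w => ?_⟩
  · simp only [map_intCast]
    exact hLo w
  · simp only [map_intCast]
    exact (hINF m hm h1 K r hq w a b ha0 hb0).2 hR.pos

/-- the model with rational points of order two -/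
lemma isR_K : IsR (base (Em 1) K) ((0 : ℤ) : K) ((-1 : ℤ) : K) ((16 : ℤ) : K) := by
  refine ⟨?_, ?_, ?_, ?_, ?_⟩ <;> simp [Em]
  norm_num

/-- **The order of `Ш[2]` over the quadratic field.** -/
theorem sha_two (hDESC : S_DESC) (hNRM : S_NRM) (hGN : S_GN) (h2N : S_2N) (h17N : S_17N)
    (hGU : S_GU) (h2U : S_2U) (h17U : S_17U) (hINF : S_INF)
    (hm : Squarefree m) (h1 : m ≠ 1) (hm1 : m ≠ -1) (h17 : m ≠ 17) (hS : Sg m) (hq : Qd m K r)
    (hfin : Finite (base (Em 1) K).toAffine.Point) {S : Finset (ℤ × ℤ)} {k : ℕ}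
    (hS1 : ∀ z ∈ S, Rel m z.1 z.2)
    (hS2 : ∀ z ∈ S, ∀ z' ∈ S, Eqv m z.1 z'.1 → Eqv m z.2 z'.2 → z = z')
    (hS3 : ∀ a b : ℤ, Rel m a b → ∃ z ∈ S, Eqv m a z.1 ∧ Eqv m b z.2) (hk : S.card = k) :
    Finite {x : Sha (base (Em 1) K) // 2 • x = 0} ∧
    4 * Nat.card {x : Sha (base (Em 1) K) // 2 • x = 0} = k := by
  set f : ℤ × ℤ → K × K := fun z => ((z.1 : K), (z.2 : K)) with hf
  have hfi : Function.Injective f := by
    rintro ⟨a, b⟩ ⟨a', b'⟩ he
    have e1 : (a : K) = (a' : K) := (Prod.mk.inj he).1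
    have e2 : (b : K) = (b' : K) := (Prod.mk.inj he).2
    have e3 : a = a' := by exact_mod_cast e1
    have e4 : b = b' := by exact_mod_cast e2
    subst e3 e4
    rfl
  obtain ⟨g1, g2⟩ := hDESC K (base (Em 1) K) 0 (-1) 16 (by omega)
    (by omega) (by omega) isR_K hfin (S.image f) (fun z hz => by
      obtain ⟨t, ht, rfl⟩ := Finset.mem_image.1 hz
      exact suf hGU h2U h17U hINF hm h1 hq (hS1 t ht)) (fun z hz z' hz' k1 k2 => by
      obtain ⟨t, ht, rfl⟩ := Finset.mem_image.1 hz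
      obtain ⟨t', ht', rfl⟩ := Finset.mem_image.1 hz'
      have e1 := (eqv_iff hm h1 hq).1 k1
      have e2 := (eqv_iff hm h1 hq).1 k2
      rw [hS2 t ht t' ht' e1 e2]) (fun z hz => by
      obtain ⟨a, b, k1, k2, k3⟩ := exists_rep hNRM hGN h2N h17N hINF hm h1 hm1 h17 hS hq hz
      obtain ⟨t, ht, e1, e2⟩ := hS3 a b k1
      refine ⟨f t, Finset.mem_image_of_mem f ht, ?_, ?_⟩
      · exact sq_mul_class (by exact_mod_cast k1.sa.ne_zero) ((eqv_iff hm h1 hq).2 e1) k2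
      · exact sq_mul_class (by exact_mod_cast k1.sb.ne_zero) ((eqv_iff hm h1 hq).2 e2) k3)
  refine ⟨g1, ?_⟩
  rw [← g2, Finset.card_image_of_injective _ hfi, hk]

end

end Pool.Agent.N875.K17
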