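import Pool.Agent.N875.K17.Thm
import Pool.Agent.N871.S17.Asm

/-!
# Project K17 (helper875): the values, from `Pool/Agent/N871/S17` and `Pool/Agent/N971/EX`
-/

set_option autoImplicit false
set_option linter.style.haveILetI false

open Finset UpperHalfPlane MatrixGroups CongruenceSubgroup ZMod

namespace Pool.Agent.N875.K17

open Pool.Agent.N875.P17 (Em EQm Sg fin2_iff)
open Pool.Agent.N875.X15 (PR)
open Pool.Agent.N871.S17
open Pool.Agent.N974.Gen (E17)
open Pool.Agent.N969.P15 (Ev un)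
open Pool.Agent.N919.BS (Rt17)
open Pool.Agent.N971.EX (exists_LG)
open Pool.Agent.N974.Gen
open Pool.Agent.N809.M17 (f17 eigen17)
open Pool.Agent.W97.MT (ap)
open Pool.Agent.Y700 (IsL Omega)

theorem t_CRIT : S_CRIT := fun m hs => by
  rw [← fin2_iff hs]
  exact Pool.Agent.N871.S17.good_iff hs

theorem t_VAL1 : S_VAL1 := by
  have h4 : (1 : ℤ) % 4 = 1 := by norm_num
  obtain ⟨Op, hOp, h0, hΩ⟩ := re_zero
  have hΩ1 : Omega (WN 1) = 2 * Op :=
    hΩ _ (by rw [Pool.Agent.N871.S17.c4_WN h4]; norm_num) (by rw [Pool.Agent.N871.S17.c6_WN h4]; norm_num)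
  obtain ⟨f, hf, hv⟩ := exists_LG eigen17 (WN 1) (q := 1) (1 : DirichletCharacter ℂ 1)
    DirichletCharacter.isPrimitive_one_level_one inv_one (fun _ => 1) (fun u => by
      have : ((u : ℕ) : ZMod 1) = 1 := Subsingleton.elim _ _
      rw [this, map_one]
      norm_num) (fun _ _ => Or.inr (Or.inl rfl)) (fun p hp => by
      rw [ap_WN h4 p hp]
      have : (1 : ℤ).natAbs = 1 := rfl
      rw [this, jacobiSym.one_right]) (fun p hp => by
      rw [dvd_Δ (WN_Δ' h4) hp]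
      have : (1 : ℤ).natAbs = 1 := rfl
      rw [this, Nat.dvd_one]
      exact ⟨fun h => Or.inl (h.resolve_right hp.one_lt.ne'), fun h => Or.inl
        (h.resolve_right (by norm_num))⟩)
  have hG : gaussSum (1 : DirichletCharacter ℂ 1) (stdAddChar (N := 1)) = 1 := by
    unfold gaussSum
    have : (Finset.univ : Finset (ZMod 1)) = {1} := by
      ext x
      simp only [Finset.mem_univ, Finset.mem_singleton, true_iff]
      exact Subsingleton.elim x 1
    rw [this, Finset.sum_singleton, map_one, one_mul]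
    have : (1 : ZMod 1) = 0 := Subsingleton.elim _ _
    rw [this, AddChar.map_zero_eq_one]
  have hun : un 1 = {0} := by decide
  rw [hG, one_mul, hun, Finset.sum_singleton] at hv
  refine ⟨f, hf, ?_⟩
  have e0 : ((0 : ℕ) : ℚ) / ((1 : ℕ) : ℚ) = 0 := by norm_num
  rw [e0, h0] at hv
  rw [hv, hΩ1]
  push_cast
  norm_num
  ring

/-- the vanishing for the root number `-1` -/
theorem van_all {m : ℤ} (hs : Squarefree m) (hR : ¬ Rt17 m) :
    ∃ f : ℂ → ℂ, IsL (Wm m) f ∧ f 1 = 0 := by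
  have h0 := hs.ne_zero
  have hm4 := mod4_ne hs
  unfold Wm
  by_cases h1 : m % 4 = 1
  · rw [if_pos h1]
    rcases lt_or_gt_of_ne h0 with hm | hm
    · obtain ⟨n, rfl⟩ : ∃ n : ℕ, m = -(n : ℤ) := ⟨m.natAbs, by omega⟩
      have hn : Squarefree n :=
        Int.squarefree_natCast.1 fun x hx => hs x ((dvd_neg).2 hx)
      have h4 : n % 4 = 3 := by omega
      have c4 : (WN (-(n : ℤ))).c₄ = 273 * (n : ℤ) ^ 2 := by
        rw [Pool.Agent.N871.S17.c4_WN h1]; ring
      have c6 : (WN (-(n : ℤ))).c₆ = -(4455 * (n : ℤ) ^ 3) := by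
        rw [Pool.Agent.N871.S17.c6_WN h1]; ring
      have ha : ∀ p : ℕ, p.Prime → ap (WN (-(n : ℤ))) p = ap E17 p * jacobiSym p n := by
        intro p hp
        rw [ap_WN h1 p hp, Int.natAbs_neg, Int.natAbs_natCast]
      have hΔ : ∀ p : ℕ, p.Prime → ((p : ℤ) ∣ (WN (-(n : ℤ))).Δ ↔ p ∣ 17 ∨ p ∣ n) := by
        intro p hp
        rw [dvd_Δ (WN_Δ' h1) hp, Int.natAbs_neg, Int.natAbs_natCast]
      have h17 : jacobiSym n 17 = 1 := by
        by_contra hcon
        exact hR (Or.inr ⟨hm, by rw [jneg]; exact hcon⟩)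
      exact (vanish_nO hn _ c4 ha hΔ h4 h17 c6).2
    · obtain ⟨n, rfl⟩ : ∃ n : ℕ, m = (n : ℤ) := ⟨m.natAbs, by omega⟩
      have hn : Squarefree n := Int.squarefree_natCast.1 hs
      have h4 : n % 4 = 1 := by omega
      have h17 : jacobiSym n 17 ≠ 1 := fun h => hR (Or.inl ⟨hm, h⟩)
      have h1n : 1 < n := by
        by_contra hcon
        have : n = 1 := by
          have := hn.ne_zero
          omega
        subst this
        exact h17 (by simp)
      have c4 : (WN (n : ℤ)).c₄ = 273 * (n : ℤ) ^ 2 := Pool.Agent.N871.S17.c4_WN h1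
      have c6 : (WN (n : ℤ)).c₆ = 4455 * (n : ℤ) ^ 3 := Pool.Agent.N871.S17.c6_WN h1
      have ha : ∀ p : ℕ, p.Prime → ap (WN (n : ℤ)) p = ap E17 p * jacobiSym p n := by
        intro p hp
        rw [ap_WN h1 p hp, Int.natAbs_natCast]
      have hΔ : ∀ p : ℕ, p.Prime → ((p : ℤ) ∣ (WN (n : ℤ)).Δ ↔ p ∣ 17 ∨ p ∣ n) := by
        intro p hp
        rw [dvd_Δ (WN_Δ' h1) hp, Int.natAbs_natCast]
      exact (vanish_pO hn _ c4 ha hΔ h4 h1n h17 c6).2
  · rw [if_neg h1]
    rcases lt_or_gt_of_ne h0 with hm | hm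
    · obtain ⟨k, rfl⟩ : ∃ k : ℕ, m = -(k : ℤ) := ⟨m.natAbs, by omega⟩
      have hk : Squarefree k :=
        Int.squarefree_natCast.1 fun x hx => hs x ((dvd_neg).2 hx)
      have e : (4 * k) / 4 = k := by omega
      have hE : Ev (4 * k) := ⟨k, rfl, hk, by omega⟩
      have ha := ap_En hE
      rw [e] at ha
      have c4 : (Em (-(k : ℤ))).c₄ = 273 * ((4 * k : ℕ) : ℤ) ^ 2 := by
        rw [c4_Em]; push_cast; ring
      have c6 : (Em (-(k : ℤ))).c₆ = -(4455 * ((4 * k : ℕ) : ℤ) ^ 3) := by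
        rw [c6_Em]; push_cast; ring
      have hΔ : ∀ p : ℕ, p.Prime → ((p : ℤ) ∣ (Em (-(k : ℤ))).Δ ↔ p ∣ 17 ∨ p ∣ 4 * k) := by
        intro p hp
        rw [dvd_Δ (Em_Δ' _) hp]
        have e : (4 * -(k : ℤ)).natAbs = 4 * k := by omega
        rw [e]
      have h17 : jacobiSym k 17 = 1 := by
        by_contra hcon
        exact hR (Or.inr ⟨hm, by rw [jneg]; exact hcon⟩)
      exact (vanish_nE hE _ c4 c6 ha hΔ (by rw [e]; exact h17)).2
    · obtain ⟨k, rfl⟩ : ∃ k : ℕ, m = (k : ℤ) := ⟨m.natAbs, by omega⟩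
      have hk : Squarefree k := Int.squarefree_natCast.1 hs
      have e : (4 * k) / 4 = k := by omega
      have hE : Pool.Agent.N974.Gen.ChP.Ev (4 * k) := ⟨k, rfl, hk, by omega⟩
      have ha := ap_Ep hE
      rw [e] at ha
      have c4 : (Em (k : ℤ)).c₄ = 273 * ((4 * k : ℕ) : ℤ) ^ 2 := by
        rw [c4_Em]; push_cast; ring
      have c6 : (Em (k : ℤ)).c₆ = 4455 * ((4 * k : ℕ) : ℤ) ^ 3 := by
        rw [c6_Em]; push_cast; ring
      have hΔ : ∀ p : ℕ, p.Prime → ((p : ℤ) ∣ (Em (k : ℤ)).Δ ↔ p ∣ 17 ∨ p ∣ 4 * k) := by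
        intro p hp
        rw [dvd_Δ (Em_Δ' _) hp]
        have e : (4 * (k : ℤ)).natAbs = 4 * k := by omega
        rw [e]
      have h17 : jacobiSym k 17 ≠ 1 := fun h => hR (Or.inl ⟨hm, h⟩)
      exact (vanish_pE hE _ c4 c6 ha hΔ (by rw [e]; exact h17)).2

theorem t_VAL : S_VAL := by
  intro m hs h1
  obtain ⟨hO, f, y, hf, hy, hv⟩ := vl_all hs
  have hpf : (Kd m).primeFactors = PR m := by
    rw [← PR_Dm hs.ne_zero]
    congr 1
    unfold Kd Dm
    split_ifs <;> omega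
  have h17 : 17 ∣ Kd m ↔ (17 : ℤ) ∣ m := by
    unfold Kd
    split_ifs <;> omega
  have hW : EE m = Wm m := rfl
  rw [hW] at hO hf hv
  refine ⟨f, y, hf, ?_, hy, fun hR => ?_⟩
  · rw [mul_comm, hv, hpf]
    unfold t17
    simp only [h17]
    push_cast
    ring
  · obtain ⟨g, hg, hg0⟩ := van_all hs hR
    rw [Pool.Agent.Y700.IsL.unique hf hg, hg0, zero_mul] at hv
    have h2 : (((Omega (Wm m) : ℝ) : ℂ) * ((4 ^ (Kd m).primeFactors.card * t17 (Kd m) : ℕ) : ℂ)) ≠ 0 := by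
      refine mul_ne_zero (by exact_mod_cast hO.ne') ?_
      have : 0 < t17 (Kd m) := by
        unfold t17
        split_ifs <;> norm_num
      have : 0 < 4 ^ (Kd m).primeFactors.card * t17 (Kd m) := by positivity
      exact_mod_cast this.ne'
    rcases mul_eq_zero.1 hv.symm with h3 | h3
    · exact_mod_cast (pow_eq_zero_iff two_ne_zero).1 h3
    · exact absurd h3 h2

end Pool.Agent.N875.K17
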